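import Pool.Agent.T6.H1.Tw.Max

/-! The mean value of the moments of all the dyadic blocks, and the almost sure bound. -/

set_option autoImplicit false

namespace Pool.Agent.T6.H1.Tw

open Finset MeasureTheory

/-- the terms -/
noncomputable def fb {J : ℕ} (b : ℕ → ℂ) (θ : Fin J → ℝ) (t : ℝ) (n : ℕ) : ℂ :=
  b n * ee (ph θ n) * Complex.exp (Complex.I * t * Real.log n)

/-- all the moments -/
noncomputable def ZZ {J : ℕ} (b : ℕ → ℂ) (j T : ℕ) (θ : Fin J → ℝ) : ℝ :=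
  ∑ t ∈ Icc 1 T, hm (fb b θ (t : ℝ)) (2 * (J + 1)) j

lemma bl_fb {J : ℕ} (b : ℕ → ℂ) (θ : Fin J → ℝ) (t : ℝ) (a x : ℕ) :
    bl (fb b θ t) a x = DD b (Ico a (a + x)) t θ := rfl

/-- the constant -/
noncomputable def MM (K : ℕ) : ℝ := (K : ℝ) ^ K + Real.pi * 2 ^ (4 * K) * (K : ℝ) ^ K

lemma MM_nonneg (K : ℕ) : 0 ≤ MM K := by
  unfold MM
  have := Real.pi_pos
  positivity

lemma int_pow {J : ℕ} (b : ℕ → ℂ) (S : Finset ℕ) (t : ℝ) (p : ℕ) (hb : ∀ n, ‖b n‖ ≤ 1) :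
    Integrable (fun θ : Fin J → ℝ => ‖DD b S t θ‖ ^ p) (mu J) := by
  apply Integrable.of_bound (C := (S.card : ℝ) ^ p)
  · exact ((DD_cont b S t).norm.pow p).aestronglyMeasurable
  · refine Filter.Eventually.of_forall fun θ => ?_
    rw [norm_pow, norm_norm]
    apply pow_le_pow_left₀ (norm_nonneg _)
    unfold DD
    refine (norm_sum_le _ _).trans ?_
    have hc : (S.card : ℝ) = S.card • (1 : ℝ) := by simp
    rw [hc]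
    apply sum_le_card_nsmul
    intro n _
    rw [norm_mul, norm_mul, norm_ee, mul_one]
    have h1 : ‖Complex.exp (Complex.I * t * Real.log n)‖ = 1 := by
      rw [show Complex.I * t * Real.log n = ((t * Real.log n : ℝ) : ℂ) * Complex.I by push_cast; ring]
      exact Complex.norm_exp_ofReal_mul_I _
    rw [h1, mul_one]
    exact hb n

lemma blk {J : ℕ} (b : ℕ → ℂ) (hb : ∀ n, ‖b n‖ ≤ 1) (j i T a : ℕ) (hi : i ≤ j) (ha1 : 2 ^ j ≤ a)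
    (ha2 : a ≤ 2 ^ (j + 2)) :
    ∑ t ∈ Icc 1 T, ∫ θ, ‖DD b (Ico a (a + 2 ^ i)) (t : ℝ) θ‖ ^ (2 * (J + 1)) ∂(mu J) ≤
      ((J + 1 : ℕ) : ℝ) ^ (J + 1) * 2 ^ (i * (J + 1)) * T +
        Real.pi * 2 ^ (4 * (J + 1)) * ((J + 1 : ℕ) : ℝ) ^ (J + 1) *
          (2 ^ (j * (J + 1)) * 2 ^ i * ((j : ℝ) + 1) ^ (J + 1)) := by
  have hpi := Real.pi_pos
  have h0 : 2 ^ i ≤ a := (Nat.pow_le_pow_right (by norm_num) hi).trans ha1
  refine (moment b hb a (2 ^ i) T (Nat.one_le_two_pow) h0).trans ?_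
  have h1 : ((2 ^ i : ℕ) : ℝ) ^ (J + 1) = 2 ^ (i * (J + 1)) := by
    push_cast
    rw [pow_mul]
  rw [h1]
  have h2 : 1 + Real.log ((2 ^ i : ℕ) : ℝ) ≤ (j : ℝ) + 1 := by
    push_cast
    rw [Real.log_pow]
    have h3 : Real.log 2 ≤ 1 := by
      have := Real.log_two_lt_d9
      linarith
    have h4 : (i : ℝ) ≤ j := by exact_mod_cast hi
    have h5 : (0 : ℝ) ≤ i := Nat.cast_nonneg i
    nlinarith
  have h3 : 0 ≤ 1 + Real.log ((2 ^ i : ℕ) : ℝ) := by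
    have : 0 ≤ Real.log ((2 ^ i : ℕ) : ℝ) := Real.log_natCast_nonneg _
    linarith
  have h4 : (2 * (1 + Real.log ((2 ^ i : ℕ) : ℝ))) ^ (J + 1) ≤ 2 ^ (J + 1) * ((j : ℝ) + 1) ^ (J + 1) := by
    rw [← mul_pow]
    apply pow_le_pow_left₀ (by positivity)
    linarith
  have h5 : (2 * (a : ℝ)) ^ (J + 1) ≤ 2 ^ (3 * (J + 1)) * 2 ^ (j * (J + 1)) := by
    rw [pow_mul, pow_mul, ← mul_pow]
    apply pow_le_pow_left₀ (by positivity)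
    have : (a : ℝ) ≤ 2 ^ (j + 2) := by exact_mod_cast ha2
    rw [pow_add] at this
    linarith
  have h6 : Real.pi * (2 * (a : ℝ)) ^ (J + 1) * ((J + 1 : ℕ) : ℝ) ^ (J + 1) *
      (((2 ^ i : ℕ) : ℝ) * (2 * (1 + Real.log ((2 ^ i : ℕ) : ℝ))) ^ (J + 1)) ≤
      Real.pi * (2 ^ (3 * (J + 1)) * 2 ^ (j * (J + 1))) * ((J + 1 : ℕ) : ℝ) ^ (J + 1) *
      (2 ^ i * (2 ^ (J + 1) * ((j : ℝ) + 1) ^ (J + 1))) := by
    have g0 : (0 : ℝ) ≤ (2 * (1 + Real.log ((2 ^ i : ℕ) : ℝ))) ^ (J + 1) := by positivity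
    apply mul_le_mul _ _ (by positivity) (by positivity)
    · apply mul_le_mul_of_nonneg_right _ (by positivity)
      exact mul_le_mul_of_nonneg_left h5 hpi.le
    · have : ((2 ^ i : ℕ) : ℝ) = 2 ^ i := by push_cast; rfl
      rw [this] at h4 ⊢
      exact mul_le_mul_of_nonneg_left h4 (by positivity)
  have h7 : Real.pi * (2 ^ (3 * (J + 1)) * 2 ^ (j * (J + 1))) * ((J + 1 : ℕ) : ℝ) ^ (J + 1) *
      (2 ^ i * (2 ^ (J + 1) * ((j : ℝ) + 1) ^ (J + 1))) =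
      Real.pi * 2 ^ (4 * (J + 1)) * ((J + 1 : ℕ) : ℝ) ^ (J + 1) *
          (2 ^ (j * (J + 1)) * 2 ^ i * ((j : ℝ) + 1) ^ (J + 1)) := by
    have : (2 : ℝ) ^ (4 * (J + 1)) = 2 ^ (3 * (J + 1)) * 2 ^ (J + 1) := by
      rw [← pow_add]
      congr 1
      ring
    rw [this]
    ring
  linarith

lemma blk2 {J : ℕ} (b : ℕ → ℂ) (hb : ∀ n, ‖b n‖ ≤ 1) (j i T a : ℕ) (hi : i ≤ j) (ha1 : 2 ^ j ≤ a)
    (ha2 : a ≤ 2 ^ (j + 2)) (hT : 2 ^ j ≤ T) :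
    2 ^ (j - i) * ∑ t ∈ Icc 1 T, ∫ θ, ‖DD b (Ico a (a + 2 ^ i)) (t : ℝ) θ‖ ^ (2 * (J + 1)) ∂(mu J) ≤
      MM (J + 1) * ((j : ℝ) + 1) ^ (J + 1) * 2 ^ (j * (J + 1)) * T := by
  have hpi := Real.pi_pos
  have h1 := mul_le_mul_of_nonneg_left (blk (J := J) b hb j i T a hi ha1 ha2)
    (by positivity : (0 : ℝ) ≤ 2 ^ (j - i))
  refine h1.trans ?_
  have hT' : (2 : ℝ) ^ j ≤ T := by exact_mod_cast hT
  have h2 : (2 : ℝ) ^ (j - i) * 2 ^ i = 2 ^ j := by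
    rw [← pow_add, Nat.sub_add_cancel hi]
  have h3 : (2 : ℝ) ^ (j - i) * 2 ^ (i * (J + 1)) ≤ 2 ^ (j * (J + 1)) := by
    rw [← pow_add]
    apply pow_le_pow_right₀ (by norm_num)
    have : (j - i) * 1 ≤ (j - i) * (J + 1) := Nat.mul_le_mul_left _ (by omega)
    have h4 : (j - i) * (J + 1) + i * (J + 1) = j * (J + 1) := by
      rw [← Nat.add_mul, Nat.sub_add_cancel hi]
    omega
  have hj : (1 : ℝ) ≤ ((j : ℝ) + 1) ^ (J + 1) :=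
    one_le_pow₀ (by linarith [(Nat.cast_nonneg j : (0 : ℝ) ≤ j)])
  have h4 : (2 : ℝ) ^ (j - i) * (((J + 1 : ℕ) : ℝ) ^ (J + 1) * 2 ^ (i * (J + 1)) * T) ≤
      ((J + 1 : ℕ) : ℝ) ^ (J + 1) * (((j : ℝ) + 1) ^ (J + 1) * 2 ^ (j * (J + 1)) * T) := by
    have e : (2 : ℝ) ^ (j - i) * (((J + 1 : ℕ) : ℝ) ^ (J + 1) * 2 ^ (i * (J + 1)) * T) =
        ((J + 1 : ℕ) : ℝ) ^ (J + 1) * ((2 ^ (j - i) * 2 ^ (i * (J + 1))) * T) := by ring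
    rw [e]
    apply mul_le_mul_of_nonneg_left _ (by positivity)
    apply mul_le_mul_of_nonneg_right _ (by positivity)
    calc (2 : ℝ) ^ (j - i) * 2 ^ (i * (J + 1)) ≤ 2 ^ (j * (J + 1)) := h3
      _ = 1 * 2 ^ (j * (J + 1)) := (one_mul _).symm
      _ ≤ ((j : ℝ) + 1) ^ (J + 1) * 2 ^ (j * (J + 1)) :=
        mul_le_mul_of_nonneg_right hj (by positivity)
  have h5 : (2 : ℝ) ^ (j - i) * (Real.pi * 2 ^ (4 * (J + 1)) * ((J + 1 : ℕ) : ℝ) ^ (J + 1) *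
      (2 ^ (j * (J + 1)) * 2 ^ i * ((j : ℝ) + 1) ^ (J + 1))) ≤
      Real.pi * 2 ^ (4 * (J + 1)) * ((J + 1 : ℕ) : ℝ) ^ (J + 1) *
        (((j : ℝ) + 1) ^ (J + 1) * 2 ^ (j * (J + 1)) * T) := by
    have e : (2 : ℝ) ^ (j - i) * (Real.pi * 2 ^ (4 * (J + 1)) * ((J + 1 : ℕ) : ℝ) ^ (J + 1) *
        (2 ^ (j * (J + 1)) * 2 ^ i * ((j : ℝ) + 1) ^ (J + 1))) =
        Real.pi * 2 ^ (4 * (J + 1)) * ((J + 1 : ℕ) : ℝ) ^ (J + 1) *
        (((j : ℝ) + 1) ^ (J + 1) * 2 ^ (j * (J + 1)) * (2 ^ (j - i) * 2 ^ i)) := by ring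
    rw [e, h2]
    apply mul_le_mul_of_nonneg_left _ (by positivity)
    exact mul_le_mul_of_nonneg_left hT' (by positivity)
  rw [mul_add]
  unfold MM
  have e2 : ((((J + 1 : ℕ) : ℝ) ^ (J + 1) + Real.pi * 2 ^ (4 * (J + 1)) * ((J + 1 : ℕ) : ℝ) ^ (J + 1)) *
      ((j : ℝ) + 1) ^ (J + 1) * 2 ^ (j * (J + 1)) * T) =
      ((J + 1 : ℕ) : ℝ) ^ (J + 1) * (((j : ℝ) + 1) ^ (J + 1) * 2 ^ (j * (J + 1)) * T) +
      Real.pi * 2 ^ (4 * (J + 1)) * ((J + 1 : ℕ) : ℝ) ^ (J + 1) *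
        (((j : ℝ) + 1) ^ (J + 1) * 2 ^ (j * (J + 1)) * T) := by ring
  rw [e2]
  linarith

/-- the moment of a level, integrated -/
lemma lev {J : ℕ} (b : ℕ → ℂ) (hb : ∀ n, ‖b n‖ ≤ 1) (j i T a l : ℕ) (c : ℕ) (hi : i ≤ j)
    (hl : 2 ^ (l - i) ≤ c * 2 ^ (j - i))
    (ha1 : 2 ^ j ≤ a) (ha2 : ∀ s, s < 2 ^ (l - i) → a + s * 2 ^ i ≤ 2 ^ (j + 2)) (hT : 2 ^ j ≤ T) :
    ∑ t ∈ Icc 1 T, ∫ θ, gg (fb b θ (t : ℝ)) (2 * (J + 1)) i a l ∂(mu J) ≤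
      c * (MM (J + 1) * ((j : ℝ) + 1) ^ (J + 1) * 2 ^ (j * (J + 1)) * T) := by
  have hMM := MM_nonneg (J + 1)
  unfold gg
  simp only [bl_fb]
  have h1 : ∀ t : ℕ, ∫ θ, ∑ s ∈ range (2 ^ (l - i)),
      ‖DD b (Ico (a + s * 2 ^ i) (a + s * 2 ^ i + 2 ^ i)) (t : ℝ) θ‖ ^ (2 * (J + 1)) ∂(mu J) =
      ∑ s ∈ range (2 ^ (l - i)), ∫ θ,
      ‖DD b (Ico (a + s * 2 ^ i) (a + s * 2 ^ i + 2 ^ i)) (t : ℝ) θ‖ ^ (2 * (J + 1)) ∂(mu J) := by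
    intro t
    exact integral_finsetSum _ fun s _ => int_pow b _ _ _ hb
  simp only [h1]
  rw [sum_comm]
  set B : ℝ := MM (J + 1) * ((j : ℝ) + 1) ^ (J + 1) * 2 ^ (j * (J + 1)) * T with hB
  have hB0 : 0 ≤ B := by rw [hB]; positivity
  have h2 : ∀ s ∈ range (2 ^ (l - i)), ∑ t ∈ Icc 1 T, ∫ θ,
      ‖DD b (Ico (a + s * 2 ^ i) (a + s * 2 ^ i + 2 ^ i)) (t : ℝ) θ‖ ^ (2 * (J + 1)) ∂(mu J) ≤
      B / 2 ^ (j - i) := by
    intro s hs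
    rw [le_div_iff₀ (by positivity), mul_comm]
    exact blk2 b hb j i T (a + s * 2 ^ i) hi (by omega) (ha2 s (mem_range.1 hs)) hT
  refine (sum_le_card_nsmul _ _ _ h2).trans ?_
  rw [card_range, nsmul_eq_mul, mul_div_assoc', div_le_iff₀ (by positivity)]
  have h3 : ((2 ^ (l - i) : ℕ) : ℝ) ≤ c * 2 ^ (j - i) := by exact_mod_cast hl
  calc ((2 ^ (l - i) : ℕ) : ℝ) * B ≤ (c * 2 ^ (j - i)) * B := mul_le_mul_of_nonneg_right h3 hB0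
    _ = c * B * 2 ^ (j - i) := by ring

lemma gg_int {J : ℕ} (b : ℕ → ℂ) (hb : ∀ n, ‖b n‖ ≤ 1) (t : ℝ) (p i a l : ℕ) :
    Integrable (fun θ : Fin J → ℝ => gg (fb b θ t) p i a l) (mu J) := by
  unfold gg
  simp only [bl_fb]
  exact integrable_finsetSum _ fun s _ => int_pow b _ _ _ hb

lemma hm_int {J : ℕ} (b : ℕ → ℂ) (hb : ∀ n, ‖b n‖ ≤ 1) (t : ℝ) (p j : ℕ) :
    Integrable (fun θ : Fin J → ℝ => hm (fb b θ t) p j) (mu J) := by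
  unfold hm
  exact (integrable_finsetSum _ fun i _ => gg_int b hb t p i _ _).add
    (integrable_finsetSum _ fun i _ => gg_int b hb t p i _ _)

lemma ZZ_int {J : ℕ} (b : ℕ → ℂ) (hb : ∀ n, ‖b n‖ ≤ 1) (j T : ℕ) :
    Integrable (fun θ : Fin J → ℝ => ZZ b j T θ) (mu J) := by
  unfold ZZ
  exact integrable_finsetSum _ fun t _ => hm_int b hb t _ j

lemma hm_nonneg (f : ℕ → ℂ) (p j : ℕ) : 0 ≤ hm f p j := by
  unfold hm
  exact add_nonneg (sum_nonneg fun _ _ => gg_nonneg _ _ _ _ _) (sum_nonneg fun _ _ => gg_nonneg _ _ _ _ _)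

lemma ZZ_nonneg {J : ℕ} (b : ℕ → ℂ) (j T : ℕ) (θ : Fin J → ℝ) : 0 ≤ ZZ b j T θ := by
  unfold ZZ
  exact sum_nonneg fun _ _ => hm_nonneg _ _ _

theorem ZZ_mean {J : ℕ} (b : ℕ → ℂ) (hb : ∀ n, ‖b n‖ ≤ 1) (j T : ℕ) (hT : 2 ^ j ≤ T) :
    ∫ θ, ZZ b j T θ ∂(mu J) ≤
      3 * MM (J + 1) * ((j : ℝ) + 1) ^ (J + 2) * 2 ^ (j * (J + 1)) * T := by
  have hMM := MM_nonneg (J + 1)
  unfold ZZ
  rw [integral_finsetSum (Icc 1 T) (f := fun (t : ℕ) (θ : Fin J → ℝ) =>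
    hm (fb b θ (t : ℝ)) (2 * (J + 1)) j) fun t _ => hm_int b hb (t : ℝ) _ j]
  have h1 : ∀ t : ℕ, ∫ θ, hm (fb b θ (t : ℝ)) (2 * (J + 1)) j ∂(mu J) =
      ∑ i ∈ range (j + 1), ∫ θ, gg (fb b θ (t : ℝ)) (2 * (J + 1)) i (2 ^ j) j ∂(mu J) +
      ∑ i ∈ range (j + 1), ∫ θ, gg (fb b θ (t : ℝ)) (2 * (J + 1)) i (2 ^ (j + 1)) (j + 1) ∂(mu J) := by
    intro t
    unfold hm
    rw [integral_add (integrable_finsetSum _ fun i _ => gg_int b hb t _ i _ _)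
      (integrable_finsetSum _ fun i _ => gg_int b hb t _ i _ _),
      integral_finsetSum _ fun i _ => gg_int b hb t _ i _ _,
      integral_finsetSum _ fun i _ => gg_int b hb t _ i _ _]
  simp only [h1]
  rw [sum_add_distrib, sum_comm, sum_comm (s := Icc 1 T) (t := range (j + 1))
    (f := fun (t : ℕ) (i : ℕ) => ∫ θ, gg (fb b θ (t : ℝ)) (2 * (J + 1)) i (2 ^ (j + 1)) (j + 1) ∂(mu J))]
  set B : ℝ := MM (J + 1) * ((j : ℝ) + 1) ^ (J + 1) * 2 ^ (j * (J + 1)) * T with hB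
  have hB0 : 0 ≤ B := by rw [hB]; positivity
  have h2 : ∀ i ∈ range (j + 1), ∑ t ∈ Icc 1 T,
      ∫ θ, gg (fb b θ (t : ℝ)) (2 * (J + 1)) i (2 ^ j) j ∂(mu J) ≤ ((1 : ℕ) : ℝ) * B := by
    intro i hi
    have hi' : i ≤ j := by have := mem_range.1 hi; omega
    refine lev b hb j i T (2 ^ j) j 1 hi' (by simp) le_rfl ?_ hT
    intro s hs
    have h3 : s * 2 ^ i ≤ 2 ^ (j - i) * 2 ^ i := Nat.mul_le_mul_right _ hs.le
    rw [← pow_add, Nat.sub_add_cancel hi'] at h3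
    rw [pow_add]
    omega
  have h3 : ∀ i ∈ range (j + 1), ∑ t ∈ Icc 1 T,
      ∫ θ, gg (fb b θ (t : ℝ)) (2 * (J + 1)) i (2 ^ (j + 1)) (j + 1) ∂(mu J) ≤ ((2 : ℕ) : ℝ) * B := by
    intro i hi
    have hi' : i ≤ j := by have := mem_range.1 hi; omega
    refine lev b hb j i T (2 ^ (j + 1)) (j + 1) 2 hi' ?_ (Nat.pow_le_pow_right (by norm_num) (by omega)) ?_ hT
    · rw [show j + 1 - i = (j - i) + 1 by omega, pow_succ]
      omega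
    · intro s hs
      have h3 : s * 2 ^ i ≤ 2 ^ (j + 1 - i) * 2 ^ i := Nat.mul_le_mul_right _ hs.le
      rw [← pow_add, show j + 1 - i + i = j + 1 by omega] at h3
      rw [show j + 2 = (j + 1) + 1 by ring, pow_succ 2 (j + 1)]
      omega
  have h4 := sum_le_card_nsmul _ _ _ h2
  have h5 := sum_le_card_nsmul _ _ _ h3
  rw [card_range, nsmul_eq_mul] at h4 h5
  push_cast at h4 h5
  have e : 3 * MM (J + 1) * ((j : ℝ) + 1) ^ (J + 2) * 2 ^ (j * (J + 1)) * T =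
      ((j : ℝ) + 1) * (1 * B) + ((j : ℝ) + 1) * (2 * B) := by
    rw [hB]
    ring
  rw [e]
  exact add_le_add h4 h5

lemma ae_bdd {α ι : Type*} [MeasurableSpace α] [Countable ι] (μ : Measure α) (F : ι → α → ℝ)
    (w : ι → ℝ) (hm : ∀ i, Integrable (F i) μ) (h0 : ∀ i x, 0 ≤ F i x)
    (hw : ∀ i, ∫ x, F i x ∂μ ≤ w i) (hs : Summable w) :
    ∀ᵐ x ∂μ, ∃ C : ℝ, 0 ≤ C ∧ ∀ i, F i x ≤ C := by
  have hmeas : ∀ i, AEMeasurable (fun x => ENNReal.ofReal (F i x)) μ :=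
    fun i => (hm i).aestronglyMeasurable.aemeasurable.ennreal_ofReal
  have h1 : ∫⁻ x, ∑' i, ENNReal.ofReal (F i x) ∂μ ≤ ∑' i, ENNReal.ofReal (w i) := by
    rw [lintegral_tsum hmeas]
    apply ENNReal.tsum_le_tsum
    intro i
    rw [← ofReal_integral_eq_lintegral_ofReal (hm i) (Filter.Eventually.of_forall (h0 i))]
    exact ENNReal.ofReal_le_ofReal (hw i)
  have h2 : ∑' i, ENNReal.ofReal (w i) ≠ ⊤ := hs.tsum_ofReal_ne_top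
  have h3 : ∀ᵐ x ∂μ, ∑' i, ENNReal.ofReal (F i x) < ⊤ :=
    ae_lt_top' (AEMeasurable.tsum hmeas) (ne_top_of_le_ne_top h2 h1)
  filter_upwards [h3] with x hx
  refine ⟨(∑' i, ENNReal.ofReal (F i x)).toReal, ENNReal.toReal_nonneg, fun i => ?_⟩
  rw [← ENNReal.toReal_ofReal (h0 i x)]
  exact ENNReal.toReal_mono hx.ne (ENNReal.le_tsum i)

lemma summ : Summable (fun p : ℕ × ℕ => (1 / ((p.1 : ℝ) + 1) ^ 2) * (1 / ((p.2 : ℝ) + 1) ^ 2)) := by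
  have h1 : Summable (fun n : ℕ => 1 / ((n : ℝ) + 1) ^ 2) := by
    have := (summable_nat_add_iff 1).2 (Real.summable_one_div_nat_pow.2 (by norm_num : 1 < 2))
    simpa using this
  exact h1.mul_of_nonneg h1 (fun n => by positivity) (fun n => by positivity)

theorem ae_ZZ {J : ℕ} (b : ℕ → ℂ) (hb : ∀ n, ‖b n‖ ≤ 1) :
    ∀ᵐ θ ∂(mu J), ∃ C : ℝ, 0 ≤ C ∧ ∀ j i : ℕ, ZZ b j (2 ^ (j + i)) θ ≤
      C * (((j : ℝ) + 1) ^ (J + 4) * ((i : ℝ) + 1) ^ 2 * 2 ^ (j * (J + 1)) * 2 ^ (j + i)) := by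
  have hMM := MM_nonneg (J + 1)
  have h1 := ae_bdd (mu J) (fun p : ℕ × ℕ => fun θ => ZZ b p.1 (2 ^ (p.1 + p.2)) θ /
    (((p.1 : ℝ) + 1) ^ (J + 4) * ((p.2 : ℝ) + 1) ^ 2 * 2 ^ (p.1 * (J + 1)) * 2 ^ (p.1 + p.2)))
    (fun p => 3 * MM (J + 1) * ((1 / ((p.1 : ℝ) + 1) ^ 2) * (1 / ((p.2 : ℝ) + 1) ^ 2)))
    (fun p => (ZZ_int b hb _ _).div_const _)
    (fun p θ => div_nonneg (ZZ_nonneg _ _ _ _) (by positivity)) ?_ (summ.mul_left _)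
  · filter_upwards [h1] with θ hθ
    obtain ⟨C, hC, h⟩ := hθ
    refine ⟨C, hC, fun j i => ?_⟩
    have := h (j, i)
    dsimp only at this
    rwa [div_le_iff₀ (by positivity)] at this
  · intro p
    rw [integral_div]
    rw [div_le_iff₀ (by positivity)]
    refine (ZZ_mean b hb p.1 (2 ^ (p.1 + p.2)) (Nat.pow_le_pow_right (by norm_num) (by omega))).trans
      (le_of_eq ?_)
    push_cast
    field_simp
    ring

end Pool.Agent.T6.H1.Tw
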