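import Mathlib

/-! The geometric sum `∑_{1 ≤ t ≤ T} e^(i t x)` and the harmonic sum over a block. -/

set_option autoImplicit false

namespace Pool.Agent.T6.H1.Tw

open Finset

/-- the geometric sum -/
noncomputable def W (T : ℕ) (x : ℝ) : ℝ := ‖∑ t ∈ Icc 1 T, Complex.exp (Complex.I * t * x)‖

lemma W_le (T : ℕ) (x : ℝ) : W T x ≤ T := by
  unfold W
  refine (norm_sum_le _ _).trans ?_
  have : ∀ t ∈ Icc 1 T, ‖Complex.exp (Complex.I * t * x)‖ = 1 := by
    intro t _
    rw [show Complex.I * t * x = ((t * x : ℝ) : ℂ) * Complex.I by push_cast; ring]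
    exact Complex.norm_exp_ofReal_mul_I _
  rw [sum_congr rfl this]
  simp

lemma W_far (T : ℕ) (x : ℝ) (h0 : x ≠ 0) (h1 : |x| ≤ Real.pi) : W T x ≤ Real.pi / |x| := by
  have hx : 0 < |x| := abs_pos.2 h0
  have hz : ∀ t : ℕ, Complex.exp (Complex.I * t * x) = Complex.exp (Complex.I * x) ^ t := by
    intro t
    rw [← Complex.exp_nat_mul]
    congr 1
    ring
  have hlow : 2 * |x| / Real.pi ≤ ‖Complex.exp (Complex.I * x) - 1‖ := by
    rw [Complex.norm_exp_I_mul_ofReal_sub_one]
    have h2 := Real.mul_abs_le_abs_sin (x := x / 2) (by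
      rw [abs_div, abs_two]; linarith)
    rw [norm_mul, Real.norm_eq_abs, Real.norm_eq_abs, abs_two]
    calc 2 * |x| / Real.pi = 2 * (2 / Real.pi * |x / 2|) := by
          rw [abs_div, abs_two]; ring
      _ ≤ _ := by linarith
  have hpos : 0 < 2 * |x| / Real.pi := by positivity
  have hne : Complex.exp (Complex.I * x) - 1 ≠ 0 := by
    intro h
    rw [h, norm_zero] at hlow
    linarith
  have hsum : (∑ t ∈ Icc 1 T, Complex.exp (Complex.I * t * x)) * (Complex.exp (Complex.I * x) - 1) =
      Complex.exp (Complex.I * x) * (Complex.exp (Complex.I * x) ^ T - 1) := by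
    induction T with
    | zero => simp
    | succ T ih =>
      rw [sum_Icc_succ_top (by omega), add_mul, ih, hz]
      push_cast
      ring
  have hnorm1 : ‖Complex.exp (Complex.I * x)‖ = 1 := by
    rw [mul_comm]; exact Complex.norm_exp_ofReal_mul_I _
  have hup : W T x * ‖Complex.exp (Complex.I * x) - 1‖ ≤ 2 := by
    unfold W
    rw [← norm_mul, hsum, norm_mul, hnorm1, one_mul]
    refine (norm_sub_le _ _).trans ?_
    rw [norm_pow, hnorm1, one_pow, norm_one]
    norm_num
  have hW0 : 0 ≤ W T x := norm_nonneg _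
  rw [le_div_iff₀ hx]
  have h3 : W T x * (2 * |x| / Real.pi) ≤ 2 := (mul_le_mul_of_nonneg_left hlow hW0).trans hup
  have h4 : W T x * (2 * |x| / Real.pi) = 2 * (W T x * |x|) / Real.pi := by ring
  rw [h4, div_le_iff₀ Real.pi_pos] at h3
  linarith

lemma log_diff (u v B : ℝ) (hu : 0 < u) (hv : 0 < v) (huB : u ≤ B) (hvB : v ≤ B)
    (hne : u ≠ v) (hd1 : |u - v| ≤ u) (hd2 : |u - v| ≤ v) (T : ℕ) :
    W T (Real.log u - Real.log v) ≤ Real.pi * B / |u - v| := by
  have key : ∀ a b : ℝ, 0 < a → a ≤ B → b < a → 0 < b → a - b ≤ b →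
      (a - b) / B ≤ Real.log a - Real.log b ∧ Real.log a - Real.log b ≤ Real.pi := by
    intro a b ha haB hba hb hab
    have h1 : Real.log a - Real.log b = Real.log (a / b) := (Real.log_div ha.ne' hb.ne').symm
    have hB : 0 < B := ha.trans_le haB
    constructor
    · rw [h1]
      have h2 := Real.one_sub_inv_le_log_of_pos (div_pos ha hb)
      refine le_trans ?_ h2
      rw [inv_div]
      calc (a - b) / B ≤ (a - b) / a := by
            apply div_le_div_of_nonneg_left (by linarith) ha haB
        _ = 1 - b / a := by field_simp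
    · rw [h1]
      have h3 : a / b ≤ 2 := by rw [div_le_iff₀ hb]; linarith
      have h4 : Real.log (a / b) ≤ a / b - 1 := Real.log_le_sub_one_of_pos (div_pos ha hb)
      have := Real.pi_gt_three
      linarith
  have habs : |u - v| / B ≤ |Real.log u - Real.log v| ∧ |Real.log u - Real.log v| ≤ Real.pi := by
    rcases lt_or_gt_of_ne hne with h | h
    · rw [abs_sub_comm u v, abs_of_pos (by linarith : 0 < v - u)] at *
      obtain ⟨h1, h2⟩ := key v u hv hvB h hu hd1
      have h3 : 0 ≤ (v - u) / B := div_nonneg (by linarith) (hv.le.trans hvB)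
      rw [abs_sub_comm, abs_of_nonneg (h3.trans h1)]
      exact ⟨h1, h2⟩
    · rw [abs_of_pos (by linarith : 0 < u - v)] at *
      obtain ⟨h1, h2⟩ := key u v hu huB h hv hd2
      have h3 : 0 ≤ (u - v) / B := div_nonneg (by linarith) (hu.le.trans huB)
      rw [abs_of_nonneg (h3.trans h1)]
      exact ⟨h1, h2⟩
  have hB : 0 < B := hu.trans_le huB
  have hd : 0 < |u - v| := abs_pos.2 (sub_ne_zero.2 hne)
  have hx : 0 < |Real.log u - Real.log v| := lt_of_lt_of_le (by positivity) habs.1
  refine (W_far T _ (abs_pos.1 hx) habs.2).trans ?_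
  rw [div_le_div_iff₀ hx hd]
  have h5 := habs.1
  rw [div_le_iff₀ hB] at h5
  have hpi := Real.pi_pos
  nlinarith

lemma harm (L : ℕ) (_hL : 1 ≤ L) : ∑ d ∈ Icc 1 L, (1 : ℝ) / d ≤ 1 + Real.log L := by
  have h := harmonic_le_one_add_log L
  rw [harmonic_eq_sum_Icc] at h
  push_cast at h
  simpa using h

lemma block_sum (a L : ℕ) (hL : 1 ≤ L) (y : ℕ) (hy : y ∈ Ico a (a + L)) :
    ∑ n ∈ (Ico a (a + L)).filter (fun n => n ≠ y), (1 : ℝ) / |(y : ℝ) - n| ≤
      2 * (1 + Real.log L) := by
  rw [mem_Ico] at hy
  have hsplit : (Ico a (a + L)).filter (fun n => n ≠ y) =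
      (Ico a y) ∪ (Ioo y (a + L)) := by
    ext n
    simp only [mem_filter, mem_Ico, mem_union, mem_Ioo]
    omega
  have hdisj : Disjoint (Ico a y) (Ioo y (a + L)) := by
    rw [disjoint_left]
    intro n h1 h2
    rw [mem_Ico] at h1
    rw [mem_Ioo] at h2
    omega
  rw [hsplit, sum_union hdisj, two_mul]
  apply add_le_add
  · refine le_trans ?_ (harm L hL)
    calc ∑ n ∈ Ico a y, (1 : ℝ) / |(y : ℝ) - n|
        = ∑ d ∈ (Ico a y).image (fun n => y - n), (1 : ℝ) / d := by
          rw [sum_image]
          · apply sum_congr rfl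
            intro n hn
            rw [mem_Ico] at hn
            have h1 : (n : ℝ) < y := by exact_mod_cast hn.2
            rw [Nat.cast_sub hn.2.le, abs_of_pos (by linarith)]
          · intro n hn m hm h
            simp only [coe_Ico, Set.mem_Ico] at hn hm
            simp only at h
            omega
      _ ≤ ∑ d ∈ Icc 1 L, (1 : ℝ) / d := by
          apply sum_le_sum_of_subset_of_nonneg
          · intro d hd
            rw [mem_image] at hd
            obtain ⟨n, hn, rfl⟩ := hd
            rw [mem_Ico] at hn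
            rw [mem_Icc]
            omega
          · intro d _ _
            positivity
  · refine le_trans ?_ (harm L hL)
    calc ∑ n ∈ Ioo y (a + L), (1 : ℝ) / |(y : ℝ) - n|
        = ∑ d ∈ (Ioo y (a + L)).image (fun n => n - y), (1 : ℝ) / d := by
          rw [sum_image]
          · apply sum_congr rfl
            intro n hn
            rw [mem_Ioo] at hn
            have h1 : (y : ℝ) < n := by exact_mod_cast hn.1
            rw [Nat.cast_sub hn.1.le, abs_sub_comm, abs_of_pos (by linarith)]
          · intro n hn m hm h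
            simp only [coe_Ioo, Set.mem_Ioo] at hn hm
            simp only at h
            omega
      _ ≤ ∑ d ∈ Icc 1 L, (1 : ℝ) / d := by
          apply sum_le_sum_of_subset_of_nonneg
          · intro d hd
            rw [mem_image] at hd
            obtain ⟨n, hn, rfl⟩ := hd
            rw [mem_Ioo] at hn
            rw [mem_Icc]
            omega
          · intro d _ _
            positivity

end Pool.Agent.T6.H1.Tw
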