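import Pool.Agent.T6.H1.Tw.Nwt
import Pool.Agent.T6.H1.Tw.Geo

/-! Pairs of tuples of a short block with equal power sums, weighted by the geometric sums. -/

set_option autoImplicit false

namespace Pool.Agent.T6.H1.Tw

open Finset

variable {k : ℕ}

/-- the tuple as integers -/
def zc (n : Fin k → ℕ) : Fin k → ℤ := fun i => (n i : ℤ)

/-- the tuples of a block -/
def PF (k a L : ℕ) : Finset (Fin k → ℕ) := Fintype.piFinset (fun _ : Fin k => Ico a (a + L))

lemma mem_PF {a L : ℕ} {n : Fin k → ℕ} : n ∈ PF k a L ↔ ∀ i, a ≤ n i ∧ n i < a + L := by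
  unfold PF
  rw [Fintype.mem_piFinset]
  simp only [mem_Ico]

/-- the sum of the logarithms -/
noncomputable def lg (n : Fin k → ℕ) : ℝ := ∑ i, Real.log (n i)

open Classical in
lemma card_levelN (hk : 1 ≤ k) (n : Fin k → ℤ) (c : ℤ) (I : Finset ℕ) :
    (I.filter (fun x : ℕ => Pn n x = c)).card ≤ k := by
  refine le_trans ?_ (card_level hk n c (I.image (fun x : ℕ => (x : ℤ))))
  rw [← card_image_of_injective _ (Nat.cast_injective (R := ℤ))]
  apply card_le_card
  intro x hx
  rw [mem_image] at hx
  obtain ⟨y, hy, rfl⟩ := hx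
  rw [mem_filter] at hy
  rw [mem_filter, mem_image]
  exact ⟨⟨y, hy.1, rfl⟩, hy.2⟩

open Classical in
lemma card_fib (hk : 1 ≤ k) (a L : ℕ) (n : Fin k → ℤ) (c : ℤ) (S : Finset (Fin k → ℕ))
    (hS : ∀ m ∈ S, m ∈ PF k a L ∧ ∀ i, Pn n (m i) = c) : (S.card : ℝ) ≤ (k : ℝ) ^ k := by
  have h1 : S ⊆ Fintype.piFinset (fun _ : Fin k => (Ico a (a + L)).filter
      (fun x : ℕ => Pn n x = c)) := by
    intro m hm
    obtain ⟨h2, h3⟩ := hS m hm
    rw [mem_PF] at h2
    rw [Fintype.mem_piFinset]
    intro i
    rw [mem_filter, mem_Ico]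
    exact ⟨h2 i, h3 i⟩
  have h2 := card_le_card h1
  rw [Fintype.card_piFinset, prod_const, card_univ, Fintype.card_fin] at h2
  have h3 := card_levelN hk n c (Ico a (a + L))
  have h4 : S.card ≤ k ^ k := h2.trans (Nat.pow_le_pow_left h3 k)
  exact_mod_cast h4

lemma lg_eq {a L : ℕ} (ha : 1 ≤ a) {n : Fin k → ℕ} (hn : n ∈ PF k a L) :
    lg n = Real.log (∏ i, (n i : ℝ)) := by
  rw [mem_PF] at hn
  unfold lg
  rw [Real.log_prod]
  intro i _
  have : 1 ≤ n i := ha.trans (hn i).1
  have : (1 : ℝ) ≤ n i := by exact_mod_cast this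
  positivity

lemma W_pair (a L T : ℕ) (hL : 1 ≤ L) (hLa : L ≤ a) (n m : Fin k → ℕ) (hn : n ∈ PF k a L)
    (hm : m ∈ PF k a L) (h : EqP (zc n) (zc m)) (j : Fin k) (hne : Pn (zc n) (m j) ≠ 0) :
    W T (lg n - lg m) ≤ Real.pi * (2 * a) ^ k / |((Pn (zc n) (m j) : ℤ) : ℝ)| := by
  have ha : 1 ≤ a := hL.trans hLa
  have hn' := hn
  have hm' := hm
  rw [mem_PF] at hn' hm'
  have haR : (1 : ℝ) ≤ a := by exact_mod_cast ha
  have hLR : (L : ℝ) ≤ a := by exact_mod_cast hLa
  have hnR : ∀ i, (a : ℝ) ≤ n i := fun i => by exact_mod_cast (hn' i).1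
  have hmR : ∀ i, (a : ℝ) ≤ m i := fun i => by exact_mod_cast (hm' i).1
  have hnR2 : ∀ i, (n i : ℝ) < a + L := fun i => by exact_mod_cast (hn' i).2
  have hmR2 : ∀ i, (m i : ℝ) < a + L := fun i => by exact_mod_cast (hm' i).2
  have hd := diff_eq (zc n) (zc m) h j
  have hdR : |∏ i, (n i : ℝ) - ∏ i, (m i : ℝ)| = |((Pn (zc n) (m j) : ℤ) : ℝ)| := by
    have := congrArg (fun z : ℤ => (z : ℝ)) hd
    simp only [zc] at this
    push_cast at this
    exact this
  have hP : |((Pn (zc n) (m j) : ℤ) : ℝ)| = ∏ i, |(m j : ℝ) - n i| := by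
    unfold Pn zc
    push_cast
    rw [abs_prod]
  have hdiff : ∀ i, |(m j : ℝ) - n i| ≤ a := by
    intro i
    rw [abs_le]
    constructor
    · linarith [hmR j, hnR2 i]
    · linarith [hnR i, hmR2 j]
  rw [lg_eq ha hn, lg_eq ha hm, ← hdR]
  apply log_diff
  · exact prod_pos fun i _ => by linarith [hnR i]
  · exact prod_pos fun i _ => by linarith [hmR i]
  · calc ∏ i, (n i : ℝ) ≤ ∏ _i : Fin k, (2 * a : ℝ) :=
          prod_le_prod (fun i _ => by positivity) fun i _ => by linarith [hnR2 i]
      _ = (2 * a) ^ k := by simp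
  · calc ∏ i, (m i : ℝ) ≤ ∏ _i : Fin k, (2 * a : ℝ) :=
          prod_le_prod (fun i _ => by positivity) fun i _ => by linarith [hmR2 i]
      _ = (2 * a) ^ k := by simp
  · intro heq
    rw [heq, sub_self, abs_zero] at hdR
    have : ((Pn (zc n) (m j) : ℤ) : ℝ) = 0 := abs_eq_zero.1 hdR.symm
    exact hne (by exact_mod_cast this)
  · rw [hdR, hP]
    exact prod_le_prod (fun i _ => abs_nonneg _) fun i _ => (hdiff i).trans (hnR i)
  · rw [hdR, hP]
    exact prod_le_prod (fun i _ => abs_nonneg _) fun i _ => (hdiff i).trans (hmR i)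

open Classical in
theorem count (hk : 1 ≤ k) (a L T : ℕ) (hL : 1 ≤ L) (hLa : L ≤ a) :
    ∑ n ∈ PF k a L, ∑ m ∈ (PF k a L).filter (fun m => EqP (zc n) (zc m)), W T (lg n - lg m) ≤
      (k : ℝ) ^ k * L ^ k * T +
        Real.pi * (2 * a) ^ k * (k : ℝ) ^ k * (L * (2 * (1 + Real.log L)) ^ k) := by
  set j0 : Fin k := ⟨0, hk⟩ with hj0
  have hWnn : ∀ x : ℝ, 0 ≤ W T x := fun x => norm_nonneg _
  have hcardPF : ((PF k a L).card : ℝ) = (L : ℝ) ^ k := by
    unfold PF
    rw [Fintype.card_piFinset]
    simp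
  -- split
  have hsplit : ∀ n ∈ PF k a L, ∑ m ∈ (PF k a L).filter (fun m => EqP (zc n) (zc m)), W T (lg n - lg m) ≤
      (k : ℝ) ^ k * T + ∑ y ∈ (Ico a (a + L)).filter (fun y : ℕ => Pn (zc n) y ≠ 0),
        (k : ℝ) ^ k * (Real.pi * (2 * a) ^ k / |((Pn (zc n) y : ℤ) : ℝ)|) := by
    intro n hn
    rw [← sum_filter_add_sum_filter_not _ (fun m => Pn (zc n) (m j0) = 0)]
    apply add_le_add
    · calc ∑ m ∈ ((PF k a L).filter (fun m => EqP (zc n) (zc m))).filter
            (fun m => Pn (zc n) (m j0) = 0), W T (lg n - lg m)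
          ≤ ∑ m ∈ ((PF k a L).filter (fun m => EqP (zc n) (zc m))).filter
            (fun m => Pn (zc n) (m j0) = 0), (T : ℝ) := sum_le_sum fun m _ => W_le _ _
        _ = (((PF k a L).filter (fun m => EqP (zc n) (zc m))).filter
            (fun m => Pn (zc n) (m j0) = 0)).card * (T : ℝ) := by rw [sum_const, nsmul_eq_mul]
        _ ≤ (k : ℝ) ^ k * T := by
            apply mul_le_mul_of_nonneg_right _ (Nat.cast_nonneg T)
            apply card_fib hk a L (zc n) 0
            intro m hm
            rw [mem_filter, mem_filter] at hm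
            refine ⟨hm.1.1, fun i => ?_⟩
            rw [← hm.2]
            exact same_value (zc n) (zc m) hm.1.2 i j0
    · set S := ((PF k a L).filter (fun m => EqP (zc n) (zc m))).filter
            (fun m => ¬ Pn (zc n) (m j0) = 0) with hS
      calc ∑ m ∈ S, W T (lg n - lg m)
          ≤ ∑ m ∈ S, Real.pi * (2 * a) ^ k / |((Pn (zc n) (m j0) : ℤ) : ℝ)| := by
            apply sum_le_sum
            intro m hm
            rw [hS, mem_filter, mem_filter] at hm
            exact W_pair a L T hL hLa n m hn hm.1.1 hm.1.2 j0 hm.2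
        _ = ∑ y ∈ (Ico a (a + L)).filter (fun y : ℕ => Pn (zc n) y ≠ 0),
              ∑ m ∈ S.filter (fun m => m j0 = y),
                Real.pi * (2 * a) ^ k / |((Pn (zc n) (m j0) : ℤ) : ℝ)| := by
            symm
            apply sum_fiberwise_of_maps_to
            intro m hm
            rw [hS, mem_filter, mem_filter, mem_PF] at hm
            rw [mem_filter, mem_Ico]
            exact ⟨hm.1.1 j0, hm.2⟩
        _ ≤ _ := by
            apply sum_le_sum
            intro y _
            calc ∑ m ∈ S.filter (fun m => m j0 = y),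
                Real.pi * (2 * a) ^ k / |((Pn (zc n) (m j0) : ℤ) : ℝ)|
                = ∑ m ∈ S.filter (fun m => m j0 = y),
                  Real.pi * (2 * a) ^ k / |((Pn (zc n) y : ℤ) : ℝ)| := by
                  apply sum_congr rfl
                  intro m hm
                  rw [mem_filter] at hm
                  rw [hm.2]
              _ = ((S.filter (fun m => m j0 = y)).card : ℝ) *
                  (Real.pi * (2 * a) ^ k / |((Pn (zc n) y : ℤ) : ℝ)|) := by
                  rw [sum_const, nsmul_eq_mul]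
              _ ≤ _ := by
                  apply mul_le_mul_of_nonneg_right
                  · apply card_fib hk a L (zc n) (Pn (zc n) y)
                    intro m hm
                    rw [mem_filter, hS, mem_filter, mem_filter] at hm
                    refine ⟨hm.1.1.1, fun i => ?_⟩
                    rw [← hm.2]
                    exact same_value (zc n) (zc m) hm.1.1.2 i j0
                  · have := Real.pi_pos
                    positivity
  refine (sum_le_sum hsplit).trans ?_
  rw [sum_add_distrib, sum_const, nsmul_eq_mul, hcardPF]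
  apply add_le_add
  · apply le_of_eq; ring
  · -- swap the sums
    have hswap : ∑ n ∈ PF k a L, ∑ y ∈ (Ico a (a + L)).filter (fun y : ℕ => Pn (zc n) y ≠ 0),
        (k : ℝ) ^ k * (Real.pi * (2 * a) ^ k / |((Pn (zc n) y : ℤ) : ℝ)|) =
        ∑ y ∈ Ico a (a + L), ∑ n ∈ (PF k a L).filter (fun n => Pn (zc n) y ≠ 0),
        (k : ℝ) ^ k * (Real.pi * (2 * a) ^ k / |((Pn (zc n) y : ℤ) : ℝ)|) := by
      simp only [sum_filter]
      exact sum_comm
    rw [hswap]
    have hy : ∀ y ∈ Ico a (a + L), ∑ n ∈ (PF k a L).filter (fun n => Pn (zc n) y ≠ 0),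
        (k : ℝ) ^ k * (Real.pi * (2 * a) ^ k / |((Pn (zc n) y : ℤ) : ℝ)|) ≤
        Real.pi * (2 * a) ^ k * (k : ℝ) ^ k * (2 * (1 + Real.log L)) ^ k := by
      intro y hyI
      have h1 : ∑ n ∈ (PF k a L).filter (fun n => Pn (zc n) y ≠ 0),
          (1 : ℝ) / |((Pn (zc n) y : ℤ) : ℝ)| ≤ (2 * (1 + Real.log L)) ^ k := by
        calc ∑ n ∈ (PF k a L).filter (fun n => Pn (zc n) y ≠ 0),
              (1 : ℝ) / |((Pn (zc n) y : ℤ) : ℝ)|
            ≤ ∑ n ∈ Fintype.piFinset (fun _ : Fin k => (Ico a (a + L)).filter (fun x => x ≠ y)),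
              ∏ i, (1 : ℝ) / |(y : ℝ) - n i| := by
              have h2 : ∀ n : Fin k → ℕ, (1 : ℝ) / |((Pn (zc n) y : ℤ) : ℝ)| =
                  ∏ i, (1 : ℝ) / |(y : ℝ) - n i| := by
                intro n
                unfold Pn zc
                push_cast
                rw [abs_prod, prod_div_distrib, prod_const_one]
              rw [sum_congr rfl fun n _ => h2 n]
              apply sum_le_sum_of_subset_of_nonneg
              · intro n hn
                rw [mem_filter, mem_PF] at hn
                rw [Fintype.mem_piFinset]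
                intro i
                rw [mem_filter, mem_Ico]
                refine ⟨hn.1 i, fun heq => hn.2 ?_⟩
                rw [← heq]
                exact Pn_self (zc n) i
              · intro n _ _
                exact prod_nonneg fun i _ => by positivity
          _ = ∏ _i : Fin k, ∑ x ∈ (Ico a (a + L)).filter (fun x => x ≠ y), (1 : ℝ) / |(y : ℝ) - x| := by
              rw [prod_univ_sum]
          _ ≤ ∏ _i : Fin k, 2 * (1 + Real.log L) := by
              apply prod_le_prod
              · intro i _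
                exact sum_nonneg fun x _ => by positivity
              · intro i _
                exact block_sum a L hL y hyI
          _ = (2 * (1 + Real.log L)) ^ k := by simp
      calc ∑ n ∈ (PF k a L).filter (fun n => Pn (zc n) y ≠ 0),
          (k : ℝ) ^ k * (Real.pi * (2 * a) ^ k / |((Pn (zc n) y : ℤ) : ℝ)|)
          = (Real.pi * (2 * a) ^ k * (k : ℝ) ^ k) * ∑ n ∈ (PF k a L).filter (fun n => Pn (zc n) y ≠ 0),
              (1 : ℝ) / |((Pn (zc n) y : ℤ) : ℝ)| := by
            rw [mul_sum]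
            apply sum_congr rfl
            intro n _
            ring
        _ ≤ _ := by
            apply mul_le_mul_of_nonneg_left h1
            have := Real.pi_pos
            positivity
    refine (sum_le_sum hy).trans ?_
    rw [sum_const, nsmul_eq_mul, Nat.card_Ico]
    have : ((a + L - a : ℕ) : ℝ) = L := by
      congr 1
      omega
    rw [this]
    apply le_of_eq
    ring

end Pool.Agent.T6.H1.Tw
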