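import Pool.Agent.T6.H1.Tw.Ae

/-! The almost sure bound for all the moments. -/

set_option autoImplicit false

namespace Pool.Agent.T6.H1.Tw

open Finset MeasureTheory

lemma ee_int (k : ℤ) : ee (k : ℝ) = 1 := by
  unfold ee
  rw [Complex.exp_eq_one_iff]
  exact ⟨k, by push_cast; ring⟩

lemma fb_shift {J : ℕ} (b : ℕ → ℂ) (θ : Fin J → ℝ) (k : Fin J → ℤ) (t : ℝ) :
    fb b (fun j => θ j - k j) t = fb b θ t := by
  funext n
  unfold fb
  have h1 : ph θ n = ph (fun j => θ j - k j) n + ((∑ j : Fin J, k j * (n : ℤ) ^ ((j : ℕ) + 1) : ℤ) : ℝ) := by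
    unfold ph
    push_cast
    rw [← sum_add_distrib]
    apply sum_congr rfl
    intro j _
    ring
  rw [h1, ee_add, ee_int, mul_one]

lemma ZZ_shift {J : ℕ} (b : ℕ → ℂ) (θ : Fin J → ℝ) (k : Fin J → ℤ) (j T : ℕ) :
    ZZ b j T (fun j => θ j - k j) = ZZ b j T θ := by
  unfold ZZ
  simp only [fb_shift]

lemma mu_eq (J : ℕ) : mu J = (volume : Measure (Fin J → ℝ)).restrict
    (Set.univ.pi fun _ : Fin J => Set.Icc (0 : ℝ) 1) := by
  unfold mu
  rw [volume_pi, Measure.restrict_pi_pi]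

theorem ae_vol {J : ℕ} (b : ℕ → ℂ) (hb : ∀ n, ‖b n‖ ≤ 1) :
    ∀ᵐ θ : Fin J → ℝ, ∃ C : ℝ, 0 ≤ C ∧ ∀ j i : ℕ, ZZ b j (2 ^ (j + i)) θ ≤
      C * (((j : ℝ) + 1) ^ (J + 4) * ((i : ℝ) + 1) ^ 2 * 2 ^ (j * (J + 1)) * 2 ^ (j + i)) := by
  have h1 := ae_ZZ (J := J) b hb
  rw [mu_eq, ae_restrict_iff' (MeasurableSet.univ_pi fun _ => measurableSet_Icc)] at h1
  have h2 : ∀ᵐ θ : Fin J → ℝ, ∀ k : Fin J → ℤ,
      (fun j => θ j - k j) ∈ (Set.univ.pi fun _ : Fin J => Set.Icc (0 : ℝ) 1) →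
      ∃ C : ℝ, 0 ≤ C ∧ ∀ j i : ℕ, ZZ b j (2 ^ (j + i)) (fun j => θ j - k j) ≤
      C * (((j : ℝ) + 1) ^ (J + 4) * ((i : ℝ) + 1) ^ 2 * 2 ^ (j * (J + 1)) * 2 ^ (j + i)) := by
    rw [ae_all_iff]
    intro k
    have h3 : MeasurePreserving (fun θ : Fin J → ℝ => θ + (fun j => -(k j : ℝ))) volume volume :=
      measurePreserving_add_right _ _
    have h4 := h3.quasiMeasurePreserving.ae h1
    filter_upwards [h4] with θ hθ
    have h5 : (fun j => θ j - (k j : ℝ)) = θ + (fun j => -(k j : ℝ)) := by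
      funext j
      simp [sub_eq_add_neg]
    rw [h5]
    exact hθ
  filter_upwards [h2] with θ hθ
  have h3 := hθ (fun j => ⌊θ j⌋) (by
    intro j _
    have h4 := Int.fract_nonneg (θ j)
    have h5 := (Int.fract_lt_one (θ j)).le
    unfold Int.fract at h4 h5
    exact ⟨h4, h5⟩)
  simpa only [ZZ_shift] using h3

lemma clog_le (T : ℕ) (hT : 1 ≤ T) : ((Nat.clog 2 T : ℕ) : ℝ) + 1 ≤ 3 * (1 + Real.log T) := by
  rcases Nat.eq_or_lt_of_le hT with h | h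
  · rw [← h]
    simp
  · have h1 := Nat.pow_pred_clog_lt_self (b := 2) (x := T) (by norm_num) h
    set e := Nat.clog 2 T with he
    have h2 : 0 < e := Nat.clog_pos (by norm_num) h
    have h3 : ((2 : ℝ) ^ (e - 1)) ≤ T := by
      have : 2 ^ (e - 1) ≤ T := h1.le
      exact_mod_cast this
    have h4 : Real.log ((2 : ℝ) ^ (e - 1)) ≤ Real.log T := Real.log_le_log (by positivity) h3
    rw [Real.log_pow, Nat.cast_sub (by omega)] at h4
    push_cast at h4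
    have h5 := Real.log_two_gt_d9
    have h6 : (1 : ℝ) ≤ e := by exact_mod_cast h2
    have h7 : ((e : ℝ) - 1) * (1 / 2) ≤ ((e : ℝ) - 1) * Real.log 2 :=
      mul_le_mul_of_nonneg_left (by linarith) (by linarith)
    have h8 : 0 ≤ Real.log T := Real.log_natCast_nonneg _
    linarith

lemma pow_clog_le (T : ℕ) (hT : 1 ≤ T) : 2 ^ Nat.clog 2 T ≤ 2 * T := by
  rcases Nat.eq_or_lt_of_le hT with h | h
  · rw [← h]
    simp
  · have h1 := Nat.pow_pred_clog_lt_self (b := 2) (x := T) (by norm_num) h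
    have h2 : 0 < Nat.clog 2 T := Nat.clog_pos (by norm_num) h
    have h3 : 2 ^ Nat.clog 2 T = 2 * 2 ^ (Nat.clog 2 T - 1) := by
      rw [← pow_succ']
      congr 1
      omega
    rw [h3]
    have h4 : 2 ^ (Nat.clog 2 T - 1) < T := h1
    omega

/-- the sum over `[N, 2 N]` -/
noncomputable def SS {J : ℕ} (b : ℕ → ℂ) (θ : Fin J → ℝ) (N t : ℕ) : ℝ :=
  ‖∑ n ∈ Icc N (2 * N), fb b θ (t : ℝ) n‖

lemma SS_nonneg {J : ℕ} (b : ℕ → ℂ) (θ : Fin J → ℝ) (N t : ℕ) : 0 ≤ SS b θ N t := norm_nonneg _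

lemma SS_le {J : ℕ} (b : ℕ → ℂ) (hb : ∀ n, ‖b n‖ ≤ 1) (θ : Fin J → ℝ) (N t : ℕ) (hN : 1 ≤ N) :
    SS b θ N t ≤ 2 * N := by
  unfold SS
  refine (norm_sum_le _ _).trans ?_
  have h1 : ∀ n ∈ Icc N (2 * N), ‖fb b θ (t : ℝ) n‖ ≤ 1 := by
    intro n _
    unfold fb
    rw [norm_mul, norm_mul, norm_ee, mul_one]
    have h1 : ‖Complex.exp (Complex.I * (t : ℝ) * Real.log n)‖ = 1 := by
      rw [show Complex.I * (t : ℝ) * Real.log n = (((t : ℝ) * Real.log n : ℝ) : ℂ) * Complex.I by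
        push_cast; ring]
      exact Complex.norm_exp_ofReal_mul_I _
    rw [h1, mul_one]
    exact hb n
  refine (sum_le_card_nsmul _ _ _ h1).trans ?_
  rw [Nat.card_Icc, nsmul_eq_mul, mul_one]
  have : 2 * N + 1 - N ≤ 2 * N := by omega
  exact_mod_cast this

theorem mom {J : ℕ} (b : ℕ → ℂ) (θ : Fin J → ℝ) (C : ℝ) (hC : 0 ≤ C)
    (h : ∀ j i : ℕ, ZZ b j (2 ^ (j + i)) θ ≤
      C * (((j : ℝ) + 1) ^ (J + 4) * ((i : ℝ) + 1) ^ 2 * 2 ^ (j * (J + 1)) * 2 ^ (j + i)))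
    (N T : ℕ) (hN : 1 ≤ N) (hT : N ≤ T) :
    ∑ t ∈ Icc 1 T, SS b θ N t ^ (2 * (J + 1)) ≤
      (3 ^ (2 * J + 1) * C * 3 ^ (3 * J + 7) * 2) * (1 + Real.log T) ^ (3 * J + 7) *
        (T * (N : ℝ) ^ (J + 1)) := by
  set j := Nat.log 2 N with hj
  have hj1 : 2 ^ j ≤ N := Nat.pow_log_le_self 2 (by omega)
  have hj2 : N < 2 ^ (j + 1) := Nat.lt_pow_succ_log_self (by norm_num) N
  set e := Nat.clog 2 T with he
  have he1 : T ≤ 2 ^ e := Nat.le_pow_clog (by norm_num) T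
  have he2 : 2 ^ e ≤ 2 * T := pow_clog_le T (by omega)
  have he3 : (e : ℝ) + 1 ≤ 3 * (1 + Real.log T) := clog_le T (by omega)
  have hje : j ≤ e := by
    have : 2 ^ j ≤ 2 ^ e := hj1.trans (hT.trans he1)
    exact (Nat.pow_le_pow_iff_right (by norm_num)).1 this
  have h1 : ∑ t ∈ Icc 1 T, SS b θ N t ^ (2 * (J + 1)) ≤
      3 ^ (2 * J + 1) * ((j : ℝ) + 1) ^ (2 * J + 1) * ZZ b j (2 ^ e) θ := by
    calc ∑ t ∈ Icc 1 T, SS b θ N t ^ (2 * (J + 1))
        ≤ ∑ t ∈ Icc 1 (2 ^ e), SS b θ N t ^ (2 * (J + 1)) := by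
          apply sum_le_sum_of_subset_of_nonneg (Icc_subset_Icc le_rfl he1)
          intro t _ _
          exact pow_nonneg (SS_nonneg _ _ _ _) _
      _ ≤ ∑ t ∈ Icc (1 : ℕ) ((2 : ℕ) ^ e), 3 ^ (2 * J + 1) * ((j : ℝ) + 1) ^ (2 * J + 1) *
            hm (fb b θ ((t : ℕ) : ℝ)) (2 * (J + 1)) j := by
          apply sum_le_sum
          intro t _
          exact window (fb b θ (t : ℝ)) (2 * J + 1) j N hj1 hj2
      _ = 3 ^ (2 * J + 1) * ((j : ℝ) + 1) ^ (2 * J + 1) * ZZ b j (2 ^ e) θ := by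
          rw [← mul_sum]
          rfl
  refine h1.trans ?_
  have h2 := h j (e - j)
  rw [Nat.add_sub_cancel' hje] at h2
  have h3 : ZZ b j (2 ^ e) θ ≤ C * (((e : ℝ) + 1) ^ (J + 4) * ((e : ℝ) + 1) ^ 2 *
      (N : ℝ) ^ (J + 1) * (2 * T)) := by
    refine h2.trans (mul_le_mul_of_nonneg_left ?_ hC)
    have g1 : ((j : ℝ) + 1) ^ (J + 4) ≤ ((e : ℝ) + 1) ^ (J + 4) := by
      apply pow_le_pow_left₀ (by positivity)
      have : (j : ℝ) ≤ e := by exact_mod_cast hje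
      linarith
    have g2 : (((e - j : ℕ) : ℝ) + 1) ^ 2 ≤ ((e : ℝ) + 1) ^ 2 := by
      apply pow_le_pow_left₀ (by positivity)
      have : ((e - j : ℕ) : ℝ) ≤ e := by exact_mod_cast Nat.sub_le _ _
      linarith
    have g3 : (2 : ℝ) ^ (j * (J + 1)) ≤ (N : ℝ) ^ (J + 1) := by
      rw [pow_mul]
      apply pow_le_pow_left₀ (by positivity)
      exact_mod_cast hj1
    have g4 : (2 : ℝ) ^ e ≤ 2 * T := by exact_mod_cast he2
    apply mul_le_mul _ g4 (by positivity) (by positivity)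
    apply mul_le_mul _ g3 (by positivity) (by positivity)
    exact mul_le_mul g1 g2 (by positivity) (by positivity)
  have h4 : ((j : ℝ) + 1) ^ (2 * J + 1) ≤ ((e : ℝ) + 1) ^ (2 * J + 1) := by
    apply pow_le_pow_left₀ (by positivity)
    have : (j : ℝ) ≤ e := by exact_mod_cast hje
    linarith
  calc 3 ^ (2 * J + 1) * ((j : ℝ) + 1) ^ (2 * J + 1) * ZZ b j (2 ^ e) θ
      ≤ 3 ^ (2 * J + 1) * ((e : ℝ) + 1) ^ (2 * J + 1) * (C * (((e : ℝ) + 1) ^ (J + 4) * ((e : ℝ) + 1) ^ 2 *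
      (N : ℝ) ^ (J + 1) * (2 * T))) := by
        apply mul_le_mul _ h3 (ZZ_nonneg _ _ _ _) (by positivity)
        exact mul_le_mul_of_nonneg_left h4 (by positivity)
    _ = 3 ^ (2 * J + 1) * C * 2 * ((e : ℝ) + 1) ^ (3 * J + 7) * (T * (N : ℝ) ^ (J + 1)) := by
        rw [show 3 * J + 7 = (2 * J + 1) + (J + 4) + 2 by ring, pow_add, pow_add]
        ring
    _ ≤ 3 ^ (2 * J + 1) * C * 2 * (3 * (1 + Real.log T)) ^ (3 * J + 7) * (T * (N : ℝ) ^ (J + 1)) := by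
        apply mul_le_mul_of_nonneg_right _ (by positivity)
        apply mul_le_mul_of_nonneg_left _ (by positivity)
        exact pow_le_pow_left₀ (by positivity) he3 _
    _ = _ := by
        rw [mul_pow]
        ring

/-- interpolation below the moment `2 K` -/
lemma holder {K : ℕ} (hK : 1 ≤ K) (T N : ℕ) (hT : 1 ≤ T) (hN : 1 ≤ N) (f : ℕ → ℝ)
    (hf : ∀ t, 0 ≤ f t) (B : ℝ) (hB : 0 ≤ B)
    (h : ∑ t ∈ Icc 1 T, f t ^ (2 * K) ≤ B * (T * (N : ℝ) ^ K)) (q : ℝ) (hq : 2 ≤ q)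
    (hq2 : q ≤ 2 * K) :
    ∑ t ∈ Icc 1 T, f t ^ q ≤ (1 + B) * (T * (N : ℝ) ^ (q / 2)) := by
  have hq0 : 0 < q := by linarith
  have hT0 : (0 : ℝ) < T := by exact_mod_cast hT
  have hN0 : (0 : ℝ) < N := by exact_mod_cast hN
  set p : ℝ := 2 * K / q with hp
  have hp1 : 1 ≤ p := by rw [hp, le_div_iff₀ hq0]; linarith
  have h1 := Real.rpow_sum_le_const_mul_sum_rpow (Icc 1 T) (fun t => f t ^ q) hp1
  have h2 : ∀ t, |f t ^ q| = f t ^ q := fun t => abs_of_nonneg (Real.rpow_nonneg (hf t) _)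
  simp only [h2] at h1
  have h3 : ∀ t, (f t ^ q) ^ p = f t ^ (2 * K) := by
    intro t
    rw [← Real.rpow_mul (hf t)]
    have : q * p = ((2 * K : ℕ) : ℝ) := by
      rw [hp]
      push_cast
      field_simp
    rw [this, Real.rpow_natCast]
  simp only [h3] at h1
  rw [Nat.card_Icc, Nat.add_sub_cancel] at h1
  have h4 : (T : ℝ) ^ (p - 1) * ∑ t ∈ Icc 1 T, f t ^ (2 * K) ≤
      ((1 + B) * (T * (N : ℝ) ^ (q / 2))) ^ p := by
    calc (T : ℝ) ^ (p - 1) * ∑ t ∈ Icc 1 T, f t ^ (2 * K)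
        ≤ (T : ℝ) ^ (p - 1) * (B * (T * (N : ℝ) ^ K)) :=
          mul_le_mul_of_nonneg_left h (by positivity)
      _ = B * ((T : ℝ) ^ (p - 1) * T) * (N : ℝ) ^ K := by ring
      _ = B * (T : ℝ) ^ p * (N : ℝ) ^ K := by
          have : (T : ℝ) ^ (p - 1) * T = (T : ℝ) ^ p := by
            nth_rewrite 2 [← Real.rpow_one (T : ℝ)]
            rw [← Real.rpow_add hT0]
            congr 1
            ring
          rw [this]
      _ ≤ (1 + B) ^ p * (T : ℝ) ^ p * (N : ℝ) ^ K := by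
          apply mul_le_mul_of_nonneg_right _ (by positivity)
          apply mul_le_mul_of_nonneg_right _ (by positivity)
          calc B ≤ 1 + B := by linarith
            _ = (1 + B) ^ (1 : ℝ) := (Real.rpow_one _).symm
            _ ≤ (1 + B) ^ p := Real.rpow_le_rpow_of_exponent_le (by linarith) hp1
      _ = ((1 + B) * (T * (N : ℝ) ^ (q / 2))) ^ p := by
          rw [Real.mul_rpow (by linarith) (by positivity), Real.mul_rpow hT0.le (by positivity),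
            ← Real.rpow_mul hN0.le]
          have : q / 2 * p = ((K : ℕ) : ℝ) := by
            rw [hp]
            field_simp
          rw [this, Real.rpow_natCast]
          ring
  exact (Real.rpow_le_rpow_iff (sum_nonneg fun t _ => Real.rpow_nonneg (hf t) _) (by positivity)
    (by linarith)).1 (h1.trans h4)

theorem all_q {J : ℕ} (b : ℕ → ℂ) (hb : ∀ n, ‖b n‖ ≤ 1) (θ : Fin J → ℝ) (C : ℝ) (hC : 0 ≤ C)
    (h : ∀ j i : ℕ, ZZ b j (2 ^ (j + i)) θ ≤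
      C * (((j : ℝ) + 1) ^ (J + 4) * ((i : ℝ) + 1) ^ 2 * 2 ^ (j * (J + 1)) * 2 ^ (j + i)))
    (q : ℝ) (hq : 2 ≤ q) : ∃ C' : ℝ, 0 ≤ C' ∧ ∀ N T : ℕ, 1 ≤ N → N ≤ T →
    ∑ t ∈ Icc 1 T, SS b θ N t ^ q ≤ C' * (1 + Real.log T) ^ (3 * J + 7) *
      (T * ((N : ℝ) ^ (q / 2) + (N : ℝ) ^ (q - ((J : ℝ) + 1)))) := by
  set c : ℝ := 3 ^ (2 * J + 1) * C * 3 ^ (3 * J + 7) * 2 with hc
  have hc0 : 0 ≤ c := by rw [hc]; positivity
  refine ⟨2 ^ q * (1 + c), by positivity, fun N T hN hT => ?_⟩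
  have hN0 : (0 : ℝ) < N := by exact_mod_cast hN
  have hT0 : (0 : ℝ) < T := by exact_mod_cast (hN.trans hT)
  have hL : 0 ≤ Real.log T := Real.log_natCast_nonneg _
  have hL1 : 1 ≤ (1 + Real.log T) ^ (3 * J + 7) := one_le_pow₀ (by linarith)
  have h1 := mom b θ C hC h N T hN hT
  rw [← hc] at h1
  have h2q : (1 : ℝ) ≤ 2 ^ q := Real.one_le_rpow (by norm_num) (by linarith)
  rcases le_total q (2 * ((J + 1 : ℕ) : ℝ)) with h2 | h2
  · have h3 := holder (K := J + 1) (by omega) T N (hN.trans hT) hN (fun t => SS b θ N t)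
      (fun t => SS_nonneg _ _ _ _) (c * (1 + Real.log T) ^ (3 * J + 7)) (by positivity) h1 q hq h2
    refine h3.trans ?_
    have h4 : 1 + c * (1 + Real.log T) ^ (3 * J + 7) ≤ 2 ^ q * (1 + c) * (1 + Real.log T) ^ (3 * J + 7) := by
      calc 1 + c * (1 + Real.log T) ^ (3 * J + 7) ≤ (1 + c) * (1 + Real.log T) ^ (3 * J + 7) := by
            nlinarith
        _ = 1 * ((1 + c) * (1 + Real.log T) ^ (3 * J + 7)) := (one_mul _).symm
        _ ≤ 2 ^ q * ((1 + c) * (1 + Real.log T) ^ (3 * J + 7)) :=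
          mul_le_mul_of_nonneg_right h2q (by positivity)
        _ = _ := by ring
    apply mul_le_mul h4 _ (by positivity) (by positivity)
    apply mul_le_mul_of_nonneg_left _ hT0.le
    have : 0 ≤ (N : ℝ) ^ (q - ((J : ℝ) + 1)) := by positivity
    linarith
  · have h3 : ∀ t ∈ Icc 1 T, SS b θ N t ^ q ≤
        (2 * (N : ℝ)) ^ (q - ((2 * (J + 1) : ℕ) : ℝ)) * SS b θ N t ^ (2 * (J + 1)) := by
      intro t _
      have h4 : SS b θ N t ^ q = SS b θ N t ^ (q - ((2 * (J + 1) : ℕ) : ℝ)) * SS b θ N t ^ (2 * (J + 1)) := by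
        rw [← Real.rpow_natCast, ← Real.rpow_add_of_nonneg (SS_nonneg _ _ _ _)]
        · congr 1
          ring
        · push_cast
          push_cast at h2
          linarith
        · positivity
      rw [h4]
      apply mul_le_mul_of_nonneg_right _ (pow_nonneg (SS_nonneg _ _ _ _) _)
      apply Real.rpow_le_rpow (SS_nonneg _ _ _ _) (SS_le b hb θ N t hN)
      push_cast
      push_cast at h2
      linarith
    refine (sum_le_sum h3).trans ?_
    rw [← mul_sum]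
    have h5 : (2 * (N : ℝ)) ^ (q - ((2 * (J + 1) : ℕ) : ℝ)) ≤
        2 ^ q * (N : ℝ) ^ (q - ((2 * (J + 1) : ℕ) : ℝ)) := by
      rw [Real.mul_rpow (by norm_num) hN0.le]
      apply mul_le_mul_of_nonneg_right _ (by positivity)
      apply Real.rpow_le_rpow_of_exponent_le (by norm_num)
      have : (0 : ℝ) ≤ ((2 * (J + 1) : ℕ) : ℝ) := Nat.cast_nonneg _
      linarith
    have h6 : (N : ℝ) ^ (q - ((2 * (J + 1) : ℕ) : ℝ)) * (N : ℝ) ^ (J + 1) =
        (N : ℝ) ^ (q - ((J : ℝ) + 1)) := by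
      rw [← Real.rpow_natCast, ← Real.rpow_add hN0]
      congr 1
      push_cast
      ring
    calc (2 * (N : ℝ)) ^ (q - ((2 * (J + 1) : ℕ) : ℝ)) * ∑ t ∈ Icc 1 T, SS b θ N t ^ (2 * (J + 1))
        ≤ (2 ^ q * (N : ℝ) ^ (q - ((2 * (J + 1) : ℕ) : ℝ))) *
          (c * (1 + Real.log T) ^ (3 * J + 7) * (T * (N : ℝ) ^ (J + 1))) := by
          apply mul_le_mul h5 h1 (sum_nonneg fun t _ => pow_nonneg (SS_nonneg _ _ _ _) _)
            (by positivity)
      _ = 2 ^ q * c * (1 + Real.log T) ^ (3 * J + 7) *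
          (T * ((N : ℝ) ^ (q - ((2 * (J + 1) : ℕ) : ℝ)) * (N : ℝ) ^ (J + 1))) := by ring
      _ = 2 ^ q * c * (1 + Real.log T) ^ (3 * J + 7) * (T * (N : ℝ) ^ (q - ((J : ℝ) + 1))) := by
          rw [h6]
      _ ≤ 2 ^ q * (1 + c) * (1 + Real.log T) ^ (3 * J + 7) *
          (T * ((N : ℝ) ^ (q / 2) + (N : ℝ) ^ (q - ((J : ℝ) + 1)))) := by
          apply mul_le_mul _ _ (by positivity) (by positivity)
          · apply mul_le_mul_of_nonneg_right _ (by positivity)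
            apply mul_le_mul_of_nonneg_left _ (by positivity)
            linarith
          · apply mul_le_mul_of_nonneg_left _ hT0.le
            have : 0 ≤ (N : ℝ) ^ (q / 2) := by positivity
            linarith

end Pool.Agent.T6.H1.Tw
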