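import Pool.Agent.T6.H1.Tw.Orth

/-! The maximal inequality: dyadic decomposition of the sums over `[N, 2 N]`. -/

set_option autoImplicit false

namespace Pool.Agent.T6.H1.Tw

open Finset MeasureTheory

/-- the sum over a block -/
noncomputable def bl (f : ℕ → ℂ) (a x : ℕ) : ℂ := ∑ n ∈ Ico a (a + x), f n

/-- the moments of the dyadic blocks of level `i` -/
noncomputable def gg (f : ℕ → ℂ) (p i a l : ℕ) : ℝ :=
  ∑ s ∈ range (2 ^ (l - i)), ‖bl f (a + s * 2 ^ i) (2 ^ i)‖ ^ p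

lemma gg_nonneg (f : ℕ → ℂ) (p i a l : ℕ) : 0 ≤ gg f p i a l :=
  sum_nonneg fun s _ => pow_nonneg (norm_nonneg _) _

lemma bl_add (f : ℕ → ℂ) (a x y : ℕ) : bl f a (x + y) = bl f a x + bl f (a + x) y := by
  unfold bl
  rw [← add_assoc]
  exact (sum_Ico_consecutive f (by omega) (by omega)).symm

lemma pre (f : ℕ → ℂ) (p : ℕ) : ∀ l a x : ℕ, x < 2 ^ l → ∃ y : ℕ → ℝ, (∀ i, 0 ≤ y i) ∧
    (∀ i, i < l → y i ^ p ≤ gg f p i a l) ∧ ‖bl f a x‖ ≤ ∑ i ∈ range l, y i := by
  intro l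
  induction l with
  | zero =>
    intro a x hx
    refine ⟨fun _ => 0, fun _ => le_rfl, fun i hi => absurd hi (by omega), ?_⟩
    have : x = 0 := by simpa using hx
    subst this
    simp [bl]
  | succ l ih =>
    intro a x hx
    have hmono1 : ∀ i, i < l → gg f p i a l ≤ gg f p i a (l + 1) := by
      intro i hi
      unfold gg
      apply sum_le_sum_of_subset_of_nonneg
      · intro s hs
        rw [mem_range] at hs ⊢
        refine lt_of_lt_of_le hs (Nat.pow_le_pow_right (by norm_num) (by omega))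
      · intro s _ _
        positivity
    have hmono2 : ∀ i, i < l → gg f p i (a + 2 ^ l) l ≤ gg f p i a (l + 1) := by
      intro i hi
      unfold gg
      have h2 : 2 ^ (l + 1 - i) = 2 ^ (l - i) + 2 ^ (l - i) := by
        rw [show l + 1 - i = (l - i) + 1 by omega, pow_succ]
        ring
      rw [h2, sum_range_add]
      have h3 : ∀ s : ℕ, a + 2 ^ l + s * 2 ^ i = a + (2 ^ (l - i) + s) * 2 ^ i := by
        intro s
        rw [add_mul, ← pow_add, Nat.sub_add_cancel hi.le]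
        ring
      simp only [h3]
      have h4 : 0 ≤ ∑ s ∈ range (2 ^ (l - i)), ‖bl f (a + s * 2 ^ i) (2 ^ i)‖ ^ p :=
        sum_nonneg fun s _ => pow_nonneg (norm_nonneg _) _
      linarith
    rcases lt_or_ge x (2 ^ l) with h | h
    · obtain ⟨y, h1, h2, h3⟩ := ih a x h
      refine ⟨fun i => if i < l then y i else 0, fun i => ?_, fun i hi => ?_, ?_⟩
      · dsimp only
        split_ifs
        · exact h1 i
        · exact le_rfl
      · dsimp only
        split_ifs with h4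
        · exact (h2 i h4).trans (hmono1 i h4)
        · rcases Nat.eq_zero_or_pos p with h5 | h5
          · subst h5
            have : i = l := by omega
            subst this
            unfold gg
            simp
          · rw [zero_pow (by omega)]
            exact gg_nonneg _ _ _ _ _
      · rw [sum_range_succ, if_neg (lt_irrefl l), add_zero]
        refine h3.trans (le_of_eq (sum_congr rfl fun i hi => ?_))
        rw [if_pos (mem_range.1 hi)]
    · obtain ⟨y, h1, h2, h3⟩ := ih (a + 2 ^ l) (x - 2 ^ l) (by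
        rw [pow_succ] at hx
        omega)
      refine ⟨fun i => if i < l then y i else ‖bl f a (2 ^ l)‖, fun i => ?_, fun i hi => ?_, ?_⟩
      · dsimp only
        split_ifs
        · exact h1 i
        · exact norm_nonneg _
      · dsimp only
        split_ifs with h4
        · exact (h2 i h4).trans (hmono2 i h4)
        · have : i = l := by omega
          subst this
          unfold gg
          rw [show i + 1 - i = 1 by omega, pow_one, sum_range_succ, sum_range_one, zero_mul, add_zero]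
          have : 0 ≤ ‖bl f (a + 1 * 2 ^ i) (2 ^ i)‖ ^ p := by positivity
          linarith
      · rw [sum_range_succ, if_neg (lt_irrefl l)]
        have h4 : bl f a x = bl f a (2 ^ l) + bl f (a + 2 ^ l) (x - 2 ^ l) := by
          rw [← bl_add]
          congr 1
          omega
        rw [h4]
        refine (norm_add_le _ _).trans ?_
        rw [add_comm]
        apply add_le_add _ le_rfl
        refine h3.trans (le_of_eq (sum_congr rfl fun i hi => ?_))
        rw [if_pos (mem_range.1 hi)]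

lemma pre_pow (f : ℕ → ℂ) (p l a x : ℕ) (hx : x < 2 ^ l) :
    ‖bl f a x‖ ^ (p + 1) ≤ (l : ℝ) ^ p * ∑ i ∈ range l, gg f (p + 1) i a l := by
  obtain ⟨y, h1, h2, h3⟩ := pre f (p + 1) l a x hx
  have h4 : ‖bl f a x‖ ^ (p + 1) ≤ (∑ i ∈ range l, y i) ^ (p + 1) :=
    pow_le_pow_left₀ (norm_nonneg _) h3 _
  refine h4.trans ?_
  rcases Nat.eq_zero_or_pos l with h5 | h5
  · subst h5
    simp
  have h6 := pow_sum_div_card_le_sum_pow (s := range l) (f := y) (fun i _ => h1 i) p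
  rw [card_range, div_le_iff₀ (by positivity)] at h6
  refine h6.trans ?_
  rw [mul_comm]
  apply mul_le_mul_of_nonneg_left _ (by positivity)
  exact sum_le_sum fun i hi => h2 i (mem_range.1 hi)

/-- all the moments of the blocks for `N` in `[2^j, 2^(j+1))` -/
noncomputable def hm (f : ℕ → ℂ) (p j : ℕ) : ℝ :=
  ∑ i ∈ range (j + 1), gg f p i (2 ^ j) j + ∑ i ∈ range (j + 1), gg f p i (2 ^ (j + 1)) (j + 1)

lemma three (x y z : ℝ) (hx : 0 ≤ x) (hy : 0 ≤ y) (hz : 0 ≤ z) (p : ℕ) :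
    (x + y + z) ^ (p + 1) ≤ 3 ^ p * (x ^ (p + 1) + y ^ (p + 1) + z ^ (p + 1)) := by
  have h6 := pow_sum_div_card_le_sum_pow (s := (univ : Finset (Fin 3))) (f := ![x, y, z]) (by
    intro i _
    fin_cases i
    · exact hx
    · exact hy
    · exact hz) p
  rw [div_le_iff₀ (by simp)] at h6
  simp only [Fin.sum_univ_three, card_univ, Fintype.card_fin] at h6
  simp only [Matrix.cons_val_zero, Matrix.cons_val_one, Matrix.cons_val] at h6
  push_cast at h6
  linarith

theorem window (f : ℕ → ℂ) (p j N : ℕ) (h1 : 2 ^ j ≤ N) (h2 : N < 2 ^ (j + 1)) :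
    ‖∑ n ∈ Icc N (2 * N), f n‖ ^ (p + 1) ≤ 3 ^ p * ((j : ℝ) + 1) ^ p * hm f (p + 1) j := by
  have e1 : (2 : ℕ) ^ (j + 1) = 2 ^ j + 2 ^ j := by rw [pow_succ]; ring
  have hsum : ∑ n ∈ Icc N (2 * N), f n = bl f (2 ^ j) (2 ^ j) - bl f (2 ^ j) (N - 2 ^ j) +
      bl f (2 ^ (j + 1)) (2 * N + 1 - 2 ^ (j + 1)) := by
    have g1 : ∑ n ∈ Icc N (2 * N), f n = bl f N (N + 1) := by
      unfold bl
      apply sum_congr _ fun _ _ => rfl
      ext n
      rw [mem_Icc, mem_Ico]
      omega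
    have g2 : bl f (2 ^ j) ((N - 2 ^ j) + (N + 1)) = bl f (2 ^ j) (N - 2 ^ j) + bl f N (N + 1) := by
      rw [bl_add]
      congr 2
      omega
    have g3 : bl f (2 ^ j) (2 ^ j + (2 * N + 1 - 2 ^ (j + 1))) = bl f (2 ^ j) (2 ^ j) +
        bl f (2 ^ (j + 1)) (2 * N + 1 - 2 ^ (j + 1)) := by
      rw [bl_add, e1]
    have g4 : (N - 2 ^ j) + (N + 1) = 2 ^ j + (2 * N + 1 - 2 ^ (j + 1)) := by omega
    rw [g4, g3] at g2
    rw [g1]
    linear_combination -g2
  have hj : (j : ℝ) ^ p ≤ ((j : ℝ) + 1) ^ p := pow_le_pow_left₀ (Nat.cast_nonneg j) (by linarith) _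
  have hj1 : (1 : ℝ) ≤ ((j : ℝ) + 1) ^ p := one_le_pow₀ (by linarith [(Nat.cast_nonneg j : (0 : ℝ) ≤ j)])
  have hj0 : (0 : ℝ) ≤ ((j : ℝ) + 1) ^ p := by positivity
  have b1 : ‖bl f (2 ^ j) (2 ^ j)‖ ^ (p + 1) ≤ ((j : ℝ) + 1) ^ p * gg f (p + 1) j (2 ^ j) j := by
    have : gg f (p + 1) j (2 ^ j) j = ‖bl f (2 ^ j) (2 ^ j)‖ ^ (p + 1) := by
      unfold gg
      simp
    rw [this]
    have h0 : 0 ≤ ‖bl f (2 ^ j) (2 ^ j)‖ ^ (p + 1) := by positivity
    nlinarith
  have b2 := pre_pow f p j (2 ^ j) (N - 2 ^ j) (by omega)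
  have b3 := pre_pow f p (j + 1) (2 ^ (j + 1)) (2 * N + 1 - 2 ^ (j + 1)) (by omega)
  push_cast at b3
  have b2' : ‖bl f (2 ^ j) (N - 2 ^ j)‖ ^ (p + 1) ≤
      ((j : ℝ) + 1) ^ p * ∑ i ∈ range j, gg f (p + 1) i (2 ^ j) j :=
    b2.trans (mul_le_mul_of_nonneg_right hj (sum_nonneg fun i _ => gg_nonneg _ _ _ _ _))
  rw [hsum]
  have h3 : ‖bl f (2 ^ j) (2 ^ j) - bl f (2 ^ j) (N - 2 ^ j) +
      bl f (2 ^ (j + 1)) (2 * N + 1 - 2 ^ (j + 1))‖ ≤ ‖bl f (2 ^ j) (2 ^ j)‖ +
        ‖bl f (2 ^ j) (N - 2 ^ j)‖ + ‖bl f (2 ^ (j + 1)) (2 * N + 1 - 2 ^ (j + 1))‖ :=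
    (norm_add_le _ _).trans (add_le_add (norm_sub_le _ _) le_rfl)
  refine (pow_le_pow_left₀ (norm_nonneg _) h3 _).trans ?_
  refine (three _ _ _ (norm_nonneg _) (norm_nonneg _) (norm_nonneg _) p).trans ?_
  rw [mul_assoc]
  apply mul_le_mul_of_nonneg_left _ (by positivity)
  unfold hm
  rw [sum_range_succ (fun i => gg f (p + 1) i (2 ^ j) j)]
  rw [show ((j : ℝ) + 1) ^ p * (∑ i ∈ range j, gg f (p + 1) i (2 ^ j) j + gg f (p + 1) j (2 ^ j) j +
      ∑ i ∈ range (j + 1), gg f (p + 1) i (2 ^ (j + 1)) (j + 1)) =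
      ((j : ℝ) + 1) ^ p * gg f (p + 1) j (2 ^ j) j +
      ((j : ℝ) + 1) ^ p * ∑ i ∈ range j, gg f (p + 1) i (2 ^ j) j +
      ((j : ℝ) + 1) ^ p * ∑ i ∈ range (j + 1), gg f (p + 1) i (2 ^ (j + 1)) (j + 1) by ring]
  linarith

end Pool.Agent.T6.H1.Tw
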