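import Mathlib

/-! Tuples with equal power sums: the polynomials with these roots differ by a constant. -/

set_option autoImplicit false

namespace Pool.Agent.T6.H1.Tw

open Finset MvPolynomial

variable {k : ℕ}

/-- the polynomial with the roots `n i` -/
def Pn (n : Fin k → ℤ) (x : ℤ) : ℤ := ∏ i, (x - n i)

/-- the power sums of exponents `1, ..., k - 1` are equal -/
def EqP (n m : Fin k → ℤ) : Prop := ∀ j : ℕ, 1 ≤ j → j < k → ∑ i, n i ^ j = ∑ i, m i ^ j

lemma esymm_eq (n m : Fin k → ℤ) (h : EqP n m) : ∀ j : ℕ, j < k →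
    aeval (fun i => (n i : ℚ)) (esymm (Fin k) ℚ j) = aeval (fun i => (m i : ℚ)) (esymm (Fin k) ℚ j) := by
  intro j
  induction j using Nat.strong_induction_on with
  | _ j ih =>
    intro hj
    rcases Nat.eq_zero_or_pos j with h0 | h0
    · subst h0
      simp [esymm_zero]
    · have key : ∀ r : Fin k → ℤ, (j : ℚ) * aeval (fun i => (r i : ℚ)) (esymm (Fin k) ℚ j) =
          (-1) ^ (j + 1) * ∑ a ∈ antidiagonal j with a.1 < j,
            (-1) ^ a.1 * aeval (fun i => (r i : ℚ)) (esymm (Fin k) ℚ a.1) *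
              (∑ i, (r i : ℚ) ^ a.2) := by
        intro r
        have h1 := congrArg (aeval (fun i => (r i : ℚ))) (mul_esymm_eq_sum (Fin k) ℚ j)
        simpa [psum, map_sum, map_mul, map_pow] using h1
      have h2 : (j : ℚ) * aeval (fun i => (n i : ℚ)) (esymm (Fin k) ℚ j) =
          (j : ℚ) * aeval (fun i => (m i : ℚ)) (esymm (Fin k) ℚ j) := by
        rw [key n, key m]
        congr 1
        apply Finset.sum_congr rfl
        intro a ha
        rw [mem_filter, Finset.HasAntidiagonal.mem_antidiagonal] at ha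
        rw [ih a.1 ha.2 (by omega)]
        congr 1
        have h3 := h a.2 (by omega) (by omega)
        exact_mod_cast h3
      have hj0 : (j : ℚ) ≠ 0 := by
        have : j ≠ 0 := by omega
        exact_mod_cast this
      exact mul_left_cancel₀ hj0 h2

lemma eval_sum (n : Fin k → ℤ) (x : ℤ) : ((Pn n x : ℤ) : ℚ) = ∑ j ∈ range (k + 1),
    (-1) ^ j * (aeval (fun i => (n i : ℚ)) (esymm (Fin k) ℚ j) * (x : ℚ) ^ (k - j)) := by
  have h1 := Multiset.prod_X_sub_X_eq_sum_esymm (Finset.univ.val.map (fun i : Fin k => (n i : ℚ)))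
  have h2 := congrArg (Polynomial.eval (x : ℚ)) h1
  rw [Polynomial.eval_finsetSum] at h2
  simp only [Polynomial.eval_mul, Polynomial.eval_pow, Polynomial.eval_neg, Polynomial.eval_one,
    Polynomial.eval_C, Polynomial.eval_X, Multiset.card_map, Finset.card_val, Finset.card_univ,
    Fintype.card_fin, Multiset.map_map] at h2
  rw [Polynomial.eval_multiset_prod, Multiset.map_map] at h2
  unfold Pn
  push_cast
  simp only [MvPolynomial.aeval_esymm_eq_multiset_esymm]
  rw [← h2]
  rw [Finset.prod_eq_multiset_prod]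
  congr 1
  apply Multiset.map_congr rfl
  intro i _
  simp

theorem const_diff (n m : Fin k → ℤ) (h : EqP n m) (x y : ℤ) :
    Pn n x - Pn m x = Pn n y - Pn m y := by
  have key : ∀ z : ℤ, ((Pn n z - Pn m z : ℤ) : ℚ) = (-1) ^ k *
      (aeval (fun i => (n i : ℚ)) (esymm (Fin k) ℚ k) -
        aeval (fun i => (m i : ℚ)) (esymm (Fin k) ℚ k)) := by
    intro z
    push_cast
    rw [eval_sum, eval_sum, sum_range_succ, sum_range_succ]
    have h1 : ∑ j ∈ range k, (-1) ^ j * (aeval (fun i => (n i : ℚ)) (esymm (Fin k) ℚ j) *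
        (z : ℚ) ^ (k - j)) = ∑ j ∈ range k, (-1) ^ j *
          (aeval (fun i => (m i : ℚ)) (esymm (Fin k) ℚ j) * (z : ℚ) ^ (k - j)) := by
      apply sum_congr rfl
      intro j hj
      rw [esymm_eq n m h j (mem_range.1 hj)]
    rw [h1, Nat.sub_self, pow_zero]
    ring
  have h2 := (key x).trans (key y).symm
  exact_mod_cast h2

lemma Pn_zero (n : Fin k → ℤ) : Pn n 0 = (-1) ^ k * ∏ i, n i := by
  unfold Pn
  rw [show ∏ i, (0 - n i) = ∏ i, (-1 * n i) from prod_congr rfl fun i _ => by ring,
    prod_mul_distrib]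
  simp

lemma Pn_self (n : Fin k → ℤ) (j : Fin k) : Pn n (n j) = 0 :=
  prod_eq_zero (mem_univ j) (sub_self _)

theorem diff_eq (n m : Fin k → ℤ) (h : EqP n m) (j : Fin k) :
    |∏ i, n i - ∏ i, m i| = |Pn n (m j)| := by
  have h1 := const_diff n m h (m j) 0
  rw [Pn_self, sub_zero, Pn_zero, Pn_zero, ← mul_sub] at h1
  rw [h1, abs_mul, abs_pow, abs_neg, abs_one, one_pow, one_mul]

theorem same_value (n m : Fin k → ℤ) (h : EqP n m) (i j : Fin k) :
    Pn n (m i) = Pn n (m j) := by
  have h1 := const_diff n m h (m i) (m j)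
  rw [Pn_self, Pn_self, sub_zero, sub_zero] at h1
  exact h1

theorem card_level (hk : 1 ≤ k) (n : Fin k → ℤ) (c : ℤ) (I : Finset ℤ) :
    (I.filter (fun x => Pn n x = c)).card ≤ k := by
  classical
  set p : Polynomial ℤ := ∏ i, (Polynomial.X - Polynomial.C (n i)) with hp
  have hmon : p.Monic := Polynomial.monic_prod_of_monic _ _ fun i _ => Polynomial.monic_X_sub_C _
  have hdeg : p.natDegree = k := by
    rw [hp, Polynomial.natDegree_prod_of_monic _ _ fun i _ => Polynomial.monic_X_sub_C _,
      Finset.sum_congr rfl (fun i _ => Polynomial.natDegree_X_sub_C _)]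
    simp
  have hd0 : 0 < p.degree := by
    rw [Polynomial.degree_eq_natDegree hmon.ne_zero, hdeg]
    exact_mod_cast hk
  have h1 := Polynomial.card_roots_sub_C' (a := c) hd0
  rw [hdeg] at h1
  have hne : p - Polynomial.C c ≠ 0 := by
    intro h
    have : p = Polynomial.C c := sub_eq_zero.1 h
    rw [this] at hd0
    have := Polynomial.degree_C_le (a := c)
    exact absurd (lt_of_lt_of_le hd0 this) (lt_irrefl _)
  refine le_trans ?_ h1
  refine le_trans ?_ (Multiset.toFinset_card_le _)
  apply card_le_card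
  intro x hx
  rw [mem_filter] at hx
  rw [Multiset.mem_toFinset, Polynomial.mem_roots hne, Polynomial.IsRoot, Polynomial.eval_sub,
    Polynomial.eval_C, sub_eq_zero, hp, Polynomial.eval_prod]
  simpa [Pn] using hx.2

end Pool.Agent.T6.H1.Tw
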