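import Pool.Agent.T6.H1.Tw.Cnt

/-! Orthogonality over the polynomials with real coefficients modulo one. -/

set_option autoImplicit false

namespace Pool.Agent.T6.H1.Tw

open Finset MeasureTheory

/-- the uniform measure on the cube -/
noncomputable def mu (J : ℕ) : Measure (Fin J → ℝ) :=
  Measure.pi (fun _ : Fin J => volume.restrict (Set.Icc (0 : ℝ) 1))

/-- the polynomial with the coefficients `θ` -/
noncomputable def ph {J : ℕ} (θ : Fin J → ℝ) (n : ℕ) : ℝ := ∑ j : Fin J, θ j * (n : ℝ) ^ ((j : ℕ) + 1)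

/-- `e (x) = exp (2 π i x)` -/
noncomputable def ee (x : ℝ) : ℂ := Complex.exp (2 * Real.pi * Complex.I * x)

/-- the twisted Dirichlet polynomial over a set of integers -/
noncomputable def DD {J : ℕ} (b : ℕ → ℂ) (S : Finset ℕ) (t : ℝ) (θ : Fin J → ℝ) : ℂ :=
  ∑ n ∈ S, b n * ee (ph θ n) * Complex.exp (Complex.I * t * Real.log n)

instance (J : ℕ) : IsProbabilityMeasure (mu J) := by
  have : ∀ _ : Fin J, IsProbabilityMeasure (volume.restrict (Set.Icc (0 : ℝ) 1)) := by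
    intro _
    refine ⟨?_⟩
    rw [Measure.restrict_apply_univ, Real.volume_Icc]
    norm_num
  unfold mu
  infer_instance

lemma ee_add (x y : ℝ) : ee (x + y) = ee x * ee y := by
  unfold ee
  rw [← Complex.exp_add]
  congr 1
  push_cast
  ring

lemma ee_sum {ι : Type*} (s : Finset ι) (f : ι → ℝ) : ee (∑ i ∈ s, f i) = ∏ i ∈ s, ee (f i) := by
  classical
  induction s using Finset.induction_on with
  | empty => simp [ee]
  | insert a s ha ih => rw [sum_insert ha, prod_insert ha, ee_add, ih]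

lemma ee_conj (x : ℝ) : (starRingEnd ℂ) (ee x) = ee (-x) := by
  unfold ee
  rw [← Complex.exp_conj]
  congr 1
  simp only [map_mul, Complex.conj_ofReal, Complex.conj_I]
  push_cast
  rw [show (starRingEnd ℂ) 2 = 2 from Complex.conj_ofNat 2]
  ring

lemma norm_ee (x : ℝ) : ‖ee x‖ = 1 := by
  unfold ee
  rw [show 2 * Real.pi * Complex.I * x = ((2 * Real.pi * x : ℝ) : ℂ) * Complex.I by push_cast; ring]
  exact Complex.norm_exp_ofReal_mul_I _

lemma int_ee (h : ℤ) : ∫ x in Set.Icc (0 : ℝ) 1, ee (x * h) = if h = 0 then 1 else 0 := by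
  split_ifs with h0
  · subst h0
    simp [ee]
  · rw [integral_Icc_eq_integral_Ioc, ← intervalIntegral.integral_of_le zero_le_one]
    have hc : (2 * Real.pi * Complex.I * h : ℂ) ≠ 0 := by
      have : (h : ℂ) ≠ 0 := by exact_mod_cast h0
      have hpi : (Real.pi : ℂ) ≠ 0 := by exact_mod_cast Real.pi_ne_zero
      simp [this, hpi]
    have h1 : ∀ x : ℝ, ee (x * h) = Complex.exp ((2 * Real.pi * Complex.I * h) * x) := by
      intro x
      unfold ee
      congr 1
      push_cast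
      ring
    simp only [h1]
    rw [integral_exp_mul_complex hc]
    have h2 : Complex.exp (2 * Real.pi * Complex.I * h * ((1 : ℝ) : ℂ)) = 1 := by
      rw [Complex.exp_eq_one_iff]
      exact ⟨h, by push_cast; ring⟩
    rw [h2]
    simp

lemma int_prod (J : ℕ) (h : Fin J → ℤ) :
    ∫ θ, ee (∑ j, θ j * h j) ∂(mu J) = if (∀ j, h j = 0) then 1 else 0 := by
  have h1 : ∀ θ : Fin J → ℝ, ee (∑ j, θ j * h j) = ∏ j, ee (θ j * h j) := fun θ => ee_sum _ _
  simp only [h1]
  unfold mu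
  rw [integral_fintype_prod_eq_prod (𝕜 := ℂ) (fun (j : Fin J) (x : ℝ) => ee (x * h j))]
  simp only [int_ee]
  split_ifs with h2
  · apply prod_eq_one
    intro j _
    rw [if_pos (h2 j)]
  · push Not at h2
    obtain ⟨j, hj⟩ := h2
    exact prod_eq_zero (mem_univ j) (if_neg hj)

/-- the integer `p_j (n) - p_j (m)` -/
def hh (J : ℕ) (n m : Fin (J + 1) → ℕ) (j : Fin J) : ℤ :=
  ∑ i, (n i : ℤ) ^ ((j : ℕ) + 1) - ∑ i, (m i : ℤ) ^ ((j : ℕ) + 1)

lemma hh_iff (J : ℕ) (n m : Fin (J + 1) → ℕ) : (∀ j, hh J n m j = 0) ↔ EqP (zc n) (zc m) := by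
  unfold EqP hh zc
  constructor
  · intro h j h1 h2
    have := h ⟨j - 1, by omega⟩
    simp only [Nat.sub_add_cancel h1] at this
    linarith
  · intro h j
    have := h ((j : ℕ) + 1) (by omega) (by omega)
    linarith

/-- the coefficient -/
noncomputable def cf (b : ℕ → ℂ) {k : ℕ} (n m : Fin k → ℕ) : ℂ :=
  (∏ i, b (n i)) * (starRingEnd ℂ) (∏ i, b (m i))

lemma expand {J : ℕ} (b : ℕ → ℂ) (a L : ℕ) (t : ℝ) (θ : Fin J → ℝ) :
    ((‖DD b (Ico a (a + L)) t θ‖ ^ (2 * (J + 1)) : ℝ) : ℂ) =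
      ∑ n ∈ PF (J + 1) a L, ∑ m ∈ PF (J + 1) a L,
        cf b n m * Complex.exp (Complex.I * t * ((lg n - lg m : ℝ) : ℂ)) *
          ee (∑ j, θ j * hh J n m j) := by
  have h1 : ∀ z : ℂ, ((‖z‖ ^ (2 * (J + 1)) : ℝ) : ℂ) = z ^ (J + 1) * (starRingEnd ℂ) (z ^ (J + 1)) := by
    intro z
    rw [Complex.mul_conj, Complex.normSq_eq_norm_sq, norm_pow]
    push_cast
    ring
  have h2 : (DD b (Ico a (a + L)) t θ) ^ (J + 1) = ∑ n ∈ PF (J + 1) a L,
      ∏ i, (b (n i) * ee (ph θ (n i)) * Complex.exp (Complex.I * t * Real.log (n i))) := by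
    unfold DD PF
    rw [← prod_univ_sum (fun _ : Fin (J + 1) => Ico a (a + L))
      (fun _ n => b n * ee (ph θ n) * Complex.exp (Complex.I * t * Real.log n))]
    rw [prod_const, card_univ, Fintype.card_fin]
  rw [h1, h2, map_sum, sum_mul_sum]
  apply sum_congr rfl
  intro n _
  apply sum_congr rfl
  intro m _
  have h3 : ∀ r : Fin (J + 1) → ℕ, ∏ i, (b (r i) * ee (ph θ (r i)) *
      Complex.exp (Complex.I * t * Real.log (r i))) = (∏ i, b (r i)) * ee (∑ i, ph θ (r i)) *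
        Complex.exp (Complex.I * t * ((lg r : ℝ) : ℂ)) := by
    intro r
    rw [prod_mul_distrib, prod_mul_distrib, ee_sum, ← Complex.exp_sum]
    congr 2
    unfold lg
    push_cast
    rw [mul_sum]
  rw [h3 n, h3 m, map_mul, map_mul, ee_conj, ← Complex.exp_conj]
  have h4 : (starRingEnd ℂ) (Complex.I * t * ((lg m : ℝ) : ℂ)) = - (Complex.I * t * ((lg m : ℝ) : ℂ)) := by
    rw [map_mul, map_mul, Complex.conj_I, Complex.conj_ofReal, Complex.conj_ofReal]
    ring
  rw [h4]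
  have h5 : ee (∑ j, θ j * hh J n m j) = ee (∑ i, ph θ (n i)) * ee (-(∑ i, ph θ (m i))) := by
    rw [← ee_add]
    congr 1
    unfold ph hh
    rw [sum_comm, sum_comm (s := univ) (t := univ) (f := fun (i : Fin (J + 1)) (j : Fin J) =>
      θ j * ((m i : ℕ) : ℝ) ^ ((j : ℕ) + 1)), ← sub_eq_add_neg, ← sum_sub_distrib]
    apply sum_congr rfl
    intro j _
    push_cast
    rw [← mul_sum, ← mul_sum]
    ring
  rw [h5]
  have h6 : Complex.exp (Complex.I * t * ((lg n - lg m : ℝ) : ℂ)) =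
      Complex.exp (Complex.I * t * ((lg n : ℝ) : ℂ)) * Complex.exp (-(Complex.I * t * ((lg m : ℝ) : ℂ))) := by
    rw [← Complex.exp_add]
    congr 1
    push_cast
    ring
  rw [h6]
  unfold cf
  ring

lemma ph_cont {J : ℕ} (n : ℕ) : Continuous (fun θ : Fin J → ℝ => ph θ n) := by
  unfold ph
  fun_prop

lemma ee_cont : Continuous ee := by
  unfold ee
  fun_prop

lemma DD_cont {J : ℕ} (b : ℕ → ℂ) (S : Finset ℕ) (t : ℝ) :
    Continuous (fun θ : Fin J → ℝ => DD b S t θ) := by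
  unfold DD
  apply continuous_finsetSum
  intro n _
  exact (continuous_const.mul (ee_cont.comp (ph_cont n))).mul continuous_const

open Classical in
lemma int_DD {J : ℕ} (b : ℕ → ℂ) (a L : ℕ) (t : ℝ) :
    ((∫ θ, ‖DD b (Ico a (a + L)) t θ‖ ^ (2 * (J + 1)) ∂(mu J) : ℝ) : ℂ) =
      ∑ n ∈ PF (J + 1) a L, ∑ m ∈ (PF (J + 1) a L).filter (fun m => EqP (zc n) (zc m)),
        cf b n m * Complex.exp (Complex.I * t * ((lg n - lg m : ℝ) : ℂ)) := by
  rw [← integral_complex_ofReal]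
  simp only [expand]
  have hint : ∀ (n m : Fin (J + 1) → ℕ), Integrable (fun θ : Fin J → ℝ =>
      cf b n m * Complex.exp (Complex.I * t * ((lg n - lg m : ℝ) : ℂ)) *
          ee (∑ j, θ j * hh J n m j)) (mu J) := by
    intro n m
    apply Integrable.const_mul
    apply Integrable.of_bound (C := 1)
    · apply Continuous.aestronglyMeasurable
      apply ee_cont.comp
      fun_prop
    · exact Filter.Eventually.of_forall fun θ => (norm_ee _).le
  rw [integral_finsetSum _ fun n _ => integrable_finsetSum _ fun m _ => hint n m]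
  apply sum_congr rfl
  intro n _
  rw [integral_finsetSum _ fun m _ => hint n m, sum_filter]
  apply sum_congr rfl
  intro m _
  rw [integral_const_mul, int_prod]
  simp only [hh_iff]
  split_ifs <;> simp

open Classical in
theorem moment {J : ℕ} (b : ℕ → ℂ) (hb : ∀ n, ‖b n‖ ≤ 1) (a L T : ℕ) (hL : 1 ≤ L) (hLa : L ≤ a) :
    ∑ t ∈ Icc 1 T, ∫ θ, ‖DD b (Ico a (a + L)) (t : ℝ) θ‖ ^ (2 * (J + 1)) ∂(mu J) ≤
      ((J + 1 : ℕ) : ℝ) ^ (J + 1) * L ^ (J + 1) * T +
        Real.pi * (2 * a) ^ (J + 1) * ((J + 1 : ℕ) : ℝ) ^ (J + 1) * (L * (2 * (1 + Real.log L)) ^ (J + 1)) := by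
  refine le_trans ?_ (count (k := J + 1) (by omega) a L T hL hLa)
  have h1 : (((∑ t ∈ Icc 1 T, ∫ θ, ‖DD b (Ico a (a + L)) (t : ℝ) θ‖ ^ (2 * (J + 1)) ∂(mu J)) : ℝ) : ℂ) =
      ∑ n ∈ PF (J + 1) a L, ∑ m ∈ (PF (J + 1) a L).filter (fun m => EqP (zc n) (zc m)),
        cf b n m * ∑ t ∈ Icc 1 T, Complex.exp (Complex.I * t * ((lg n - lg m : ℝ) : ℂ)) := by
    rw [Complex.ofReal_sum, sum_congr (s₁ := Icc 1 T) rfl
      (fun (t : ℕ) (_ : t ∈ Icc 1 T) => int_DD (J := J) b a L (t : ℝ)), sum_comm]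
    apply sum_congr rfl
    intro n _
    rw [sum_comm]
    apply sum_congr rfl
    intro m _
    rw [mul_sum]
    apply sum_congr rfl
    intro t _
    push_cast
    rfl
  have hnn : 0 ≤ ∑ t ∈ Icc 1 T, ∫ θ, ‖DD b (Ico a (a + L)) (t : ℝ) θ‖ ^ (2 * (J + 1)) ∂(mu J) :=
    sum_nonneg fun t _ => integral_nonneg fun θ => by positivity
  rw [← Real.norm_of_nonneg hnn, ← Complex.norm_real, h1]
  refine (norm_sum_le _ _).trans (sum_le_sum fun n _ => ?_)
  refine (norm_sum_le _ _).trans (sum_le_sum fun m _ => ?_)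
  rw [norm_mul]
  have h2 : ‖cf b n m‖ ≤ 1 := by
    unfold cf
    rw [norm_mul, RCLike.norm_conj, norm_prod, norm_prod]
    calc (∏ i, ‖b (n i)‖) * (∏ i, ‖b (m i)‖) ≤ 1 * 1 := by
          apply mul_le_mul
          · exact prod_le_one (fun i _ => norm_nonneg _) fun i _ => hb _
          · exact prod_le_one (fun i _ => norm_nonneg _) fun i _ => hb _
          · exact prod_nonneg fun i _ => norm_nonneg _
          · norm_num
      _ = 1 := one_mul 1
  calc ‖cf b n m‖ * ‖∑ t ∈ Icc 1 T, Complex.exp (Complex.I * t * ((lg n - lg m : ℝ) : ℂ))‖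
      ≤ 1 * ‖∑ t ∈ Icc 1 T, Complex.exp (Complex.I * t * ((lg n - lg m : ℝ) : ℂ))‖ :=
        mul_le_mul_of_nonneg_right h2 (norm_nonneg _)
    _ = W T (lg n - lg m) := by rw [one_mul]; rfl

end Pool.Agent.T6.H1.Tw
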